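import Pool.Agent.Y989.HP.Stm

/-!
# Thick path away from the whole half-plane path (DETT)

Author: helper587 (adapted from `Pool.Agent.Y989.FR.T_DET3`).
-/

set_option autoImplicit false

namespace Pool.Agent.Y989.HP.DETT

open H974 H12S Finset H984P MeasureTheory Filter Topology
open Pool.Agent.Y989.HP
open Pool.Agent.Y989.FR (GO3 GD3 E3 core3 AE Fro V3 Gd3 BB Awy)
open H984H (Conf perc path opn cut bx gam Ret_S)

theorem mem_core3 {a : ℤ} {v : Vtx} : v ∈ core3 a ↔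
    (-(60 * a) ≤ v.1 ∧ v.1 ≤ -(58 * a)) ∧ (20 * a ≤ v.2 ∧ v.2 ≤ 22 * a) := by
  unfold core3
  rw [Finset.mem_product, Finset.mem_Icc, Finset.mem_Icc]

/-- Distances in `AE`. -/
theorem AE_sd {v : Vtx} {d k : ℕ} {e : Edg} (he : e ∈ AE v d k) :
    H984N.sd (src e) v ≤ k ∧ H984N.sd (tgt e) v ≤ k := by
  have h : e ∈ blk v k := by
    unfold AE at he
    exact (Finset.mem_sdiff.mp (Finset.mem_coe.mp he)).1
  unfold blk at h
  unfold H984N.sd
  obtain ⟨x, y, _ | _⟩ := e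
  · rw [mem_RE_false] at h
    rw [tgt_false]
    simp only [src_mk, max_le_iff, abs_le]
    omega
  · rw [mem_RE_true] at h
    rw [tgt_true]
    simp only [src_mk, max_le_iff, abs_le]
    omega

/-- Vertices of the open cluster of the origin near `v` belong to `BB`. -/
theorem clu_BB {ω : Conf} {ρ : ℤ} {a k : ℕ} (ha : 192 ≤ a) (hk : k = a / 64)
    (hρ : 156 * (a : ℤ) < ρ) {v : Vtx} (hv : v ∈ core3 a) {c : Vtx}
    (hc : Reach (opn ω) (0, 0) c) (hcv : H984N.sd c v ≤ ((8 * k : ℕ) : ℤ)) :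
    c ∈ BB k v ↑(cut ω ρ) := by
  rw [mem_core3] at hv
  obtain ⟨⟨v1, v2⟩, v3, v4⟩ := hv
  have hk8 : ((8 * k : ℕ) : ℤ) ≤ a := by omega
  set n : ℕ := 8 * k with hn
  unfold H984N.sd at hcv
  rw [max_le_iff, abs_le, abs_le] at hcv
  have hc' : Reach (opn ω) c (0, 0) := Reach.symm hc
  obtain ⟨w, h1, h2, h3⟩ := first_exit (a := v.1 - n) (b := v.1 + n) (c := v.2 - n)
    (d := v.2 + n) (u := c) (by unfold inR; omega) hc' (by simp only; omega)
  refine ⟨w, ?_, ?_⟩
  · unfold inR at h1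
    unfold bdB
    simp only [Set.mem_ofPred_eq]
    refine ⟨abs_le.mpr (by omega), abs_le.mpr (by omega), ?_⟩
    rcases h2 with h2 | h2 | h2 | h2
    · left; rw [h2, abs_eq (by positivity)]; omega
    · left; rw [h2, abs_eq (by positivity)]; omega
    · right; rw [h2, abs_eq (by positivity)]; omega
    · right; rw [h2, abs_eq (by positivity)]; omega
  · refine h3.mono ?_
    rintro e ⟨he, he'⟩
    refine ⟨?_, he'⟩
    have he2 := Finset.mem_coe.mp he'
    rw [Finset.mem_coe, H984H.Couple_mem_cut]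
    obtain ⟨x, y, β⟩ := e
    have hop : ((x, y, β) : Edg) ∈ opn ω ↔ ((y = 0 ∧ β = true ∧ x < 0) ∨
      (0 ≤ y ∧ ¬ (y = 0 ∧ β = true) ∧ ω (x, y, β) = true)) := Iff.rfl
    rw [hop] at he
    cases β
    · rw [mem_RE_false] at he2 ⊢
      rcases he with he | he
      · omega
      · exact ⟨by omega, he.2.2⟩
    · rw [mem_RE_true] at he2 ⊢
      rcases he with he | he
      · omega
      · exact ⟨by omega, he.2.2⟩

theorem awd {ω : Conf} {ρ : ℤ} {M B a k : ℕ} (hM : 16 ≤ M)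
    (hB : 1 ≤ B) (ha : 192 ≤ a) (hk : k = a / 64) (hρ : 156 * (a : ℤ) < ρ)
    {v : Vtx} (hv : v ∈ core3 a) {x : Vtx} (hx : H984N.sd x v ≤ k)
    (hA : ∀ c ∈ BB k v ↑(cut ω ρ), Awy M B k v c x) : AwP ω M B k v x := by
  intro i
  have hclu := H984H.path_clu ω i
  set c : Vtx := (path ω i).1 with hc
  rcases le_or_gt (H984N.sd c v) ((8 * k : ℕ) : ℤ) with h | h
  · exact (hA c (clu_BB ha hk hρ hv hclu h)).le
  · have hk1 : (1 : ℤ) ≤ k := by omega
    have hx0 : 0 ≤ H984N.sd x v := le_max_of_le_left (abs_nonneg _)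
    have h7 : (k : ℤ) ≤ H984N.sd x c := by
      have h1 : H984N.sd c v ≤ H984N.sd x c + H984N.sd x v := by
        unfold H984N.sd
        apply max_le
        · calc |c.1 - v.1| = |(x.1 - v.1) - (x.1 - c.1)| := by ring_nf
            _ ≤ |x.1 - v.1| + |x.1 - c.1| := abs_sub _ _
            _ ≤ _ := by
              rw [add_comm]
              exact add_le_add (le_max_left _ _) (le_max_left _ _)
        · calc |c.2 - v.2| = |(x.2 - v.2) - (x.2 - c.2)| := by ring_nf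
            _ ≤ |x.2 - v.2| + |x.2 - c.2| := abs_sub _ _
            _ ≤ _ := by
              rw [add_comm]
              exact add_le_add (le_max_right _ _) (le_max_right _ _)
      push_cast at h
      linarith
    obtain ⟨B', rfl⟩ : ∃ B', B = B' + 1 := ⟨B - 1, by omega⟩
    rw [Nat.add_sub_cancel, pow_succ]
    have e1 : H984N.sd x v ^ B' ≤ ((8 * k : ℕ) : ℤ) ^ B' := by
      apply pow_le_pow_left₀ hx0
      push_cast
      linarith
    have e2 : H984N.sd x v ≤ H984N.sd x c := hx.trans h7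
    have e3 : (0 : ℤ) ≤ ((8 * k : ℕ) : ℤ) ^ B' := by positivity
    have hM' : (1 : ℤ) ≤ M := by exact_mod_cast (by omega : 1 ≤ M)
    have hxc : 0 ≤ H984N.sd x c := by linarith
    calc H984N.sd x v ^ B' * H984N.sd x v ≤ ((8 * k : ℕ) : ℤ) ^ B' * H984N.sd x c :=
          mul_le_mul e1 e2 hx0 e3
      _ = 1 * (((8 * k : ℕ) : ℤ) ^ B' * H984N.sd x c) := (one_mul _).symm
      _ ≤ M * (((8 * k : ℕ) : ℤ) ^ B' * H984N.sd x c) :=
          mul_le_mul_of_nonneg_right hM' (mul_nonneg e3 hxc)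
      _ = _ := by ring

theorem t_DETT : S_DETT := by
  intro ω ρ M B a hM hB ha hρ v hv hE
  obtain ⟨-, x, hx, y, hy, hxy⟩ := hE
  refine ⟨x, hx, y, hy, hxy.mono ?_⟩
  rintro e ⟨he, h1, h2⟩
  exact ⟨he, awd hM hB ha rfl hρ hv (AE_sd he).1 h1, awd hM hB ha rfl hρ hv (AE_sd he).2 h2⟩

end Pool.Agent.Y989.HP.DETT
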