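import Pool.Agent.Y989.HP.Stm
import Pool.Agent.Y989.FR.T_DET3

/-!
# Visited vertices for the half-plane exploration path (DETV)

Author: helper587.
-/

set_option autoImplicit false

namespace Pool.Agent.Y989.HP.DETV

open H974 H12S Finset H984P MeasureTheory Filter Topology H342P
open Pool.Agent.Y989.HP
open Pool.Agent.Y989.FR (GO3 GD3 E3 core3 AE Fro V3 Gd3)
open H984H (Conf perc path opn cut bx gam Ret_S step)

/-! ### The box (copied from `Pool.Agent.TH990.HP.Path`) -/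

/-- The box as a rectangle of the natural parametrisation library. -/
def bxN (ρ : ℤ) : H984N.Dm := ⟨-ρ, ρ, ρ, 0⟩

open Classical in
/-- The configuration without the edges of the positive half-axis. -/
noncomputable def cutz (ω : Conf) (ρ : ℤ) : Finset Edg :=
  (cut ω ρ).filter (fun e => e ∉ H984H.Dm.zer)

theorem cfg_eq (ω : Conf) (ρ : ℤ) : (bxN ρ).cfg (cutz ω ρ) = (bx ρ).cfg (cut ω ρ) := by
  classical
  have h : (↑(cutz ω ρ) : Set Edg) = ↑(cut ω ρ) \ H984H.Dm.zer := by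
    unfold cutz
    ext e
    simp only [Finset.coe_filter, Set.mem_ofPred_eq, Set.mem_sdiff, Finset.mem_coe]
  show (↑(cutz ω ρ) : Set Edg) ∪ (bxN ρ).wir = (↑(cut ω ρ) \ H984H.Dm.zer) ∪ (bx ρ).wir
  rw [h]
  rfl

theorem walk_eq (ω : Conf) (ρ : ℤ) (k : ℕ) :
    (bxN ρ).walk (cutz ω ρ) k = (bx ρ).walk (cut ω ρ) k := by
  show orb ((bxN ρ).cfg (cutz ω ρ)) (bxN ρ).start k = orb ((bx ρ).cfg (cut ω ρ)) (bx ρ).start k
  rw [cfg_eq]
  rfl

theorem len_eq (ω : Conf) (ρ : ℤ) : (bxN ρ).len (cutz ω ρ) = (bx ρ).len (cut ω ρ) := by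
  show sInf {k | (bxN ρ).walk (cutz ω ρ) k = H984N.Dm.stop} =
    sInf {k | (bx ρ).walk (cut ω ρ) k = H984H.Dm.stop}
  simp only [walk_eq]
  rfl

theorem bxN_ok {ρ : ℤ} (hρ : 1 ≤ ρ) : (bxN ρ).Ok := by
  constructor <;> simp only [bxN] <;> omega

theorem cutz_sub (ω : Conf) (ρ : ℤ) : cutz ω ρ ⊆ (bxN ρ).edges := by
  classical
  unfold cutz
  exact (Finset.filter_subset _ _).trans (H984H.Couple_cut_sub ω ρ)

theorem mem_cutz {ω : Conf} {ρ : ℤ} {e : Edg} (he : e ∈ cut ω ρ)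
    (h : ¬ (e.2.2 = true ∧ e.2.1 = 0 ∧ 0 ≤ e.1)) : e ∈ cutz ω ρ := by
  classical
  unfold cutz
  exact Finset.mem_filter.2 ⟨he, h⟩

theorem cutz_cut (ω : Conf) (ρ : ℤ) : cutz ω ρ ⊆ cut ω ρ := by
  classical
  unfold cutz
  exact Finset.filter_subset _ _

/-! ### The configuration of the box as a configuration of the half-plane -/

open Classical in
/-- The configuration whose path is the whole path of the box, run backwards. -/
noncomputable def om (ω : Conf) (ρ : ℤ) : Conf := fun e => decide (e ∈ (bx ρ).cfg (cut ω ρ))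

theorem om_iff {ω : Conf} {ρ : ℤ} {e : Edg} : om ω ρ e = true ↔ e ∈ (bx ρ).cfg (cut ω ρ) := by
  classical
  unfold om
  exact decide_eq_true_iff

theorem opn_om {ρ : ℤ} (hρ : 1 ≤ ρ) (ω : Conf) {e : Edg}
    (he : ¬ (e.2.1 = 0 ∧ e.2.2 = true ∧ e.1 < -ρ)) :
    e ∈ opn (om ω ρ) ↔ e ∈ (bx ρ).cfg (cut ω ρ) := by
  have hop : e ∈ opn (om ω ρ) ↔ ((e.2.1 = 0 ∧ e.2.2 = true ∧ e.1 < 0) ∨
      (0 ≤ e.2.1 ∧ ¬ (e.2.1 = 0 ∧ e.2.2 = true) ∧ om ω ρ e = true)) := Iff.rfl
  rw [hop, om_iff, H984H.Couple_cfg_iff]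
  obtain ⟨x, y, b⟩ := e
  by_cases hw : ω (x, y, b) = true
  · cases b
    · rw [mem_RE_false]
      simp only [hw, Bool.false_eq_true, false_and, and_false, and_true, false_or, or_false,
        not_false_eq_true, true_and]
      omega
    · rw [mem_RE_true]
      simp only [hw, Bool.true_eq_false, false_and, and_true, false_or, true_and] at he ⊢
      omega
  · cases b
    · simp only [hw, Bool.false_eq_true, false_and, and_false, false_or, or_false,
        true_and, not_false_eq_true]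
      omega
    · have hw' : ω (x, y, true) = false := by simpa using hw
      simp only [hw', Bool.true_eq_false, Bool.false_eq_true, false_and, and_false, false_or,
        true_and] at he ⊢
      omega

theorem step_om {ρ : ℤ} (hρ : 1 ≤ ρ) (ω : Conf) {σ : St} (hx : -ρ ≤ σ.1.1)
    (hb : σ ≠ ((-ρ, 0), .nw)) :
    step (opn (om ω ρ)) σ = step ((bx ρ).cfg (cut ω ρ)) σ := by
  classical
  obtain ⟨⟨x, y⟩, q⟩ := σ
  simp only at hx
  cases q
  · simp only [step]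
    rw [if_congr (opn_om hρ ω (e := (x, y, false)) (by simp)) rfl rfl]
  · simp only [step]
    rw [if_congr (opn_om hρ ω (e := (x - 1, y, true)) (by
      rintro ⟨h1, -, h3⟩
      simp only at h1 h3
      apply hb
      have h4 : x = -ρ := by omega
      rw [h1, h4])) rfl rfl]
  · simp only [step]
    rw [if_congr (opn_om hρ ω (e := (x, y - 1, false)) (by simp)) rfl rfl]
  · simp only [step]
    rw [if_congr (opn_om hρ ω (e := (x, y, true)) (by
      rintro ⟨h1, -, h3⟩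
      simp only at h1 h3
      omega)) rfl rfl]

theorem not_corner {ρ : ℤ} (hρ : 1 ≤ ρ) (ω : Conf) {k : ℕ}
    (hk : k ≤ (bx ρ).len (cut ω ρ)) : (bx ρ).walk (cut ω ρ) k ≠ ((-ρ, 0), .nw) := by
  intro h
  have h1 := (H984H.walk_clu (H984H.bx_ok hρ) (H984H.Couple_cut_sub ω ρ) hk).2
  rw [h] at h1
  have h2 := H984H.dclu_in (H984H.bx_ok hρ) h1
  have hf : face (((-ρ, 0), .nw) : St) = (-ρ - 1, 0) := rfl
  rw [hf] at h2
  have hl : (bx ρ).l = -ρ := rfl
  have hr : (bx ρ).r = ρ := rfl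
  have hh : (bx ρ).h = ρ := rfl
  rcases h2 with h2 | h2
  · rcases h2 with ⟨h3, -⟩ | ⟨h3, -⟩ | ⟨h3, -⟩
    · simp at h3
    · rw [hr] at h3; simp only at h3; omega
    · rw [hh] at h3; simp only at h3; omega
  · rw [hl] at h2
    simp only at h2
    omega

/-- The path of `om ω ρ` is the path of the box, run backwards. -/
theorem rev {ρ : ℤ} (hρ : 1 ≤ ρ) (ω : Conf) {k : ℕ} (hk : k + 1 ≤ (bx ρ).len (cut ω ρ)) :
    path (om ω ρ) k = (bx ρ).walk (cut ω ρ) ((bx ρ).len (cut ω ρ) - 1 - k) := by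
  have hL := H984H.walk_len (H984H.bx_ok hρ) (H984H.Couple_cut_sub ω ρ)
  set L := (bx ρ).len (cut ω ρ) with hLdef
  induction k with
  | zero =>
    obtain ⟨m, hm⟩ : ∃ m, L = m + 1 := ⟨L - 1, by omega⟩
    rw [hm] at hL ⊢
    rw [H984H.walk_succ, ← H984H.Couple_first ω] at hL
    exact ((nxt_bij _).1 hL).symm
  | succ k ih =>
    have ih' := ih (by omega)
    obtain ⟨m, hm⟩ : ∃ m, L - 1 - k = m + 1 := ⟨L - 1 - k - 1, by omega⟩
    have hm' : L - 1 - (k + 1) = m := by omega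
    rw [hm', H984H.path_succ, ih', hm, step_om hρ ω
      (H984H.walk_in (H984H.bx_ok hρ) (H984H.Couple_cut_sub ω ρ) (m + 1)).1.1
      (not_corner hρ ω (by omega)), H984H.walk_succ, H984H.step_nxt]

theorem visited {ω : Conf} {ρ : ℤ} {a : ℕ} (ha : 192 ≤ a) (haρ : 156 * (a : ℤ) < ρ)
    (hGO : GO3 a (cut ω ρ)) (hGD : GD3 a (cut ω ρ)) {v : Vtx} (hv : v ∈ core3 a)
    (hE : H984P.RA v a (↑(cut ω ρ) : Set Edg)) :
    ∃ i ≤ (bx ρ).len (cut ω ρ), (bx ρ).walk (cut ω ρ) i = (v, .ne) := by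
  have hρ : 1 ≤ ρ := by omega
  have hv' := Pool.Agent.Y989.FR.DET3.mem_core3.1 hv
  obtain ⟨⟨w, hw, hr1⟩, ⟨g, hg, hd1⟩⟩ := hE
  have hGO' : GO3 a (cutz ω ρ) := by
    obtain ⟨⟨y, y', hy, hy', h1⟩, ⟨x, x', hx, hx', h2⟩⟩ := hGO
    refine ⟨⟨y, y', hy, hy', h1.mono ?_⟩, ⟨x, x', hx, hx', h2.mono ?_⟩⟩
    · rintro e ⟨he1, he2⟩
      refine ⟨mem_cutz he1 ?_, he2⟩
      rintro ⟨h3, h4, -⟩
      obtain ⟨p, q, b⟩ := e
      simp only at h3 h4
      subst h3
      rw [Finset.mem_coe, mem_LRE_true] at he2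
      omega
    · rintro e ⟨he1, he2⟩
      refine ⟨mem_cutz he1 ?_, he2⟩
      rintro ⟨h3, h4, -⟩
      obtain ⟨p, q, b⟩ := e
      simp only at h3 h4
      subst h3
      rw [Finset.mem_coe, mem_TBE_true] at he2
      omega
  have hGD' : GD3 a (cutz ω ρ) := by
    obtain ⟨⟨y, y', hy, hy', h1⟩, ⟨x, x', hx, hx', h2⟩⟩ := hGD
    refine ⟨⟨y, y', hy, hy', h1.mono ?_⟩, ⟨x, x', hx, hx', h2.mono ?_⟩⟩
    · exact_mod_cast Finset.sdiff_subset_sdiff subset_rfl (cutz_cut ω ρ)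
    · exact_mod_cast Finset.sdiff_subset_sdiff subset_rfl (cutz_cut ω ρ)
  have hl : (bxN ρ).l < -(27 * (4 * a : ℕ)) := by
    simp only [bxN]
    push_cast
    omega
  have hr : 27 * (4 * a : ℕ) < (bxN ρ).r := by
    simp only [bxN]
    push_cast
    omega
  have hh : 39 * (4 * a : ℕ) < (bxN ρ).h := by
    simp only [bxN]
    push_cast
    omega
  have hr1' : Reach ((↑(cutz ω ρ) : Set Edg) ∩ ↑(H984P.PR v a)) v w := by
    refine hr1.mono ?_
    rintro e ⟨he1, he2⟩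
    refine ⟨mem_cutz he1 ?_, he2⟩
    rintro ⟨h3, h4, -⟩
    obtain ⟨p, q, b⟩ := e
    simp only at h3 h4
    subst h3
    unfold H984P.PR at he2
    rw [Finset.mem_coe, mem_RE_true] at he2
    omega
  have hd1' : DReach (dE (H984P.DR v a) \ (↑(cutz ω ρ) : Set Edg)) v g :=
    hd1.mono (by
      rintro e ⟨h1, h2⟩
      exact ⟨h1, fun h => h2 (cutz_cut ω ρ h)⟩)
  have hvc : v ∈ (bxN ρ).clu (cutz ω ρ) :=
    Pool.Agent.Y989.FR.DET3.open_part ha hl hGO' hv hw hr1'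
  have hvd : v ∈ (bxN ρ).dclu (cutz ω ρ) :=
    Pool.Agent.Y989.FR.DET3.dual_part (bxN_ok hρ) ha hl hr hh hGD' hv hg hd1'
  obtain ⟨k1, hk1, hk1'⟩ := H443B.visited (bxN_ok hρ) (cutz_sub ω ρ) (σ := (v, .ne)) hvc hvd
  rw [len_eq] at hk1
  rw [walk_eq] at hk1'
  exact ⟨k1, hk1, hk1'⟩

theorem t_DETV : S_DETV := by
  intro ω ρ R r M B a ha hr60 hrR hRρ haρ hS hGO hGD v hv hE
  have hρ : 1 ≤ ρ := by omega
  obtain ⟨i, hi, hiv⟩ := visited ha haρ hGO hGD hv hE.1
  have hL := H984H.walk_len (H984H.bx_ok hρ) (H984H.Couple_cut_sub ω ρ)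
  set L := (bx ρ).len (cut ω ρ) with hLdef
  have hi' : i < L := by
    rcases lt_or_eq_of_le hi with h | h
    · exact h
    · exfalso
      rw [h, hL] at hiv
      have := congrArg Prod.snd hiv
      simp [H984H.Dm.stop] at this
  have hl : path (om ω ρ) (L - 1 - i) = (v, .ne) := by
    rw [rev hρ ω (by omega), ← hLdef, show L - 1 - (L - 1 - i) = i by omega, hiv]
  have hS' : ∀ u ∈ Ret_S (om ω ρ) r, H984H.sd u (0, 0) < R := by
    rintro u ⟨u0, h1, h2, h3⟩
    apply hS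
    induction h3 with
    | refl => exact ⟨u0, h1, h2, Reach.refl _ _⟩
    | @tail b c _ hs ih =>
      obtain ⟨e, he, hc⟩ := hs
      have hb := hS _ ih
      have h0 := H984H.Ret_S_nonneg ih
      refine H984H.Ret_S_closed ih ⟨e, ?_, hc⟩
      obtain ⟨k1, k2, k3⟩ := he
      have hcv : src e = b ∨ tgt e = b := by
        rcases hc with h | h
        · exact Or.inl h.1
        · exact Or.inr h.2
      have h4 := (H984H.cfg_opn hρ ω h0 (hb.trans hRρ) hcv).1 (om_iff.1 k3)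
      rcases h4 with h5 | h5
      · exact absurd ⟨h5.1, h5.2.1⟩ k2
      · exact ⟨k1, k2, h5.2.2⟩
  have hv' := Pool.Agent.Y989.FR.DET3.mem_core3.1 hv
  have hvr : H984H.sd v (0, 0) ≤ r := by
    rw [H984H.Ret_sd]
    refine max_le (abs_le.2 ?_) (abs_le.2 ?_) <;> omega
  have hk : ∀ k ≤ L - 1 - i, H984H.sd (path (om ω ρ) k).1 (0, 0) < R := by
    intro k hk
    by_contra h
    exact H984H.Ret_det (om ω ρ) (by omega) hrR hS' hk (not_lt.1 h) (by rw [hl]; exact hvr)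
  have key : ∀ k, k ≤ L - 1 - i → path ω k = path (om ω ρ) k := by
    intro k
    induction k using Nat.strong_induction_on with
    | _ k ih =>
      intro hkl
      have hj : ∀ j < k, H984H.sd (path ω j).1 (0, 0) < ρ := fun j hj => by
        rw [ih j hj (by omega)]
        exact (hk j (by omega)).trans hRρ
      have h1 := (H984H.couple hρ ω hj).2
      rw [← h1, rev hρ ω (by omega)]
  exact ⟨L - 1 - i, by rw [key _ le_rfl, hl], fun j hj => by rw [key j hj]; exact hk j hj⟩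

end Pool.Agent.Y989.HP.DETV
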