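import Pool.Agent.Y989.HP.Stm
import Pool.Agent.Y989.FR.T_GEO

/-!
# Step GEOT: geometry of the limit at all later times
-/

set_option autoImplicit false

namespace Pool.Agent.Y989.HP.GEOT

open H974 H12S Finset H984P MeasureTheory Filter Topology
open Pool.Agent.Y989.FR (GO3 GD3 E3 core3 AE Fro V3 Gd3 Qc)
open H984H (Conf perc path opn cut bx gam Ret_S)

/-- Multiplication by `t`. -/
def mT (t : unitInterval) : C(unitInterval, unitInterval) :=
  ⟨fun s => t * s, by fun_prop⟩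

theorem range_mT (f : C(unitInterval, ℂ)) (t : unitInterval) :
    Set.range (f.comp (mT t)) = f '' Set.Icc 0 t := by
  ext w
  constructor
  · rintro ⟨s, rfl⟩
    refine ⟨t * s, ⟨unitInterval.nonneg', ?_⟩, rfl⟩
    exact Subtype.coe_le_coe.1 (mul_le_of_le_one_right t.2.1 s.2.2)
  · rintro ⟨s, ⟨-, hs⟩, rfl⟩
    rcases eq_or_lt_of_le t.2.1 with h | h
    · refine ⟨0, ?_⟩
      show f (t * 0) = f s
      rw [mul_zero]
      congr 1
      apply Subtype.ext
      have h1 : (s : ℝ) ≤ t := hs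
      have h2 : (0 : ℝ) ≤ s := s.2.1
      have h3 : ((0 : unitInterval) : ℝ) = 0 := rfl
      rw [h3]
      linarith
    · refine ⟨⟨s / t, div_nonneg s.2.1 t.2.1, (div_le_one h).2 hs⟩, ?_⟩
      show f (t * _) = f s
      congr 1
      apply Subtype.ext
      rw [Set.Icc.coe_mul]
      show (t : ℝ) * (s / t) = s
      field_simp

theorem t_GEOT : S_GEOT := by
  intro t M κ R B N f z hM hκ hB hQ t' ht
  have hQc : ∀ k : ℕ, (f.comp (mT t'), z) ∈ Qc M κ R (1 / ((k : ℝ) + 1)) B (N k) := by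
    intro k
    obtain ⟨h1, ⟨s, hs, hsd⟩, x, hx1, hx2, hx3, hx4, hx5⟩ := hQ k
    refine ⟨h1, ?_, x, hx1, hx2, hx3, hx4, fun i s => hx5 i (t' * s)⟩
    have hmem : f s ∈ Set.range (f.comp (mT t')) := by
      rw [range_mT]
      exact ⟨s, ⟨unitInterval.nonneg', Subtype.coe_le_coe.1 (hs.trans ht)⟩, rfl⟩
    obtain ⟨s', hs'⟩ := hmem
    refine ⟨s', ?_⟩
    show dist (f.comp (mT t') s') z ≤ _
    rw [hs']
    exact hsd
  rw [← range_mT]
  refine ⟨?_, Pool.Agent.Y989.FR.GEO.t_GEO M κ R B N _ z hM hκ hB hQc⟩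
  have hKc : IsCompact (Set.range (f.comp (mT t'))) := isCompact_range (f.comp (mT t')).continuous
  rw [← hKc.isClosed.closure_eq, Metric.mem_closure_iff]
  intro ε hε
  obtain ⟨k, hk⟩ := exists_nat_one_div_lt hε
  obtain ⟨-, ⟨s, hs⟩, -⟩ := hQc k
  refine ⟨_, Set.mem_range_self s, ?_⟩
  rw [dist_comm]
  exact hs.trans_lt hk

end Pool.Agent.Y989.HP.GEOT
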