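import Pool.Agent.Y989.HP.Stm

/-!
# HP-QCT: the sets of pairs with chains are closed
-/

set_option autoImplicit false

namespace Pool.Agent.Y989.HP.QCT

open Pool.Agent.Y989.HP

/-- QCT: these sets are closed. -/
theorem t_QCT : S_QCT := by
  intro t M κ R e B N
  have : CompactSpace (Metric.closedBall (0 : ℂ) R) :=
    isCompact_iff_compactSpace.mp (isCompact_closedBall 0 R)
  let C : Set ((C(unitInterval, ℂ) × ℂ) × (unitInterval × (Fin (N + 1) →
      Metric.closedBall (0 : ℂ) R))) :=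
    {q | ‖q.1.2‖ ≤ R ∧ ((q.2.1 : ℝ) ≤ t ∧ dist (q.1.1 q.2.1) q.1.2 ≤ e) ∧
      dist ((q.2.2 0 : Metric.closedBall (0 : ℂ) R) : ℂ) q.1.2 ≤ e ∧
      κ ≤ dist ((q.2.2 (Fin.last N) : Metric.closedBall (0 : ℂ) R) : ℂ) q.1.2 + e ∧
      (∀ i : Fin N, dist ((q.2.2 i.castSucc : Metric.closedBall (0 : ℂ) R) : ℂ)
        ((q.2.2 i.succ : Metric.closedBall (0 : ℂ) R) : ℂ) ≤ e) ∧
      ∀ (i : Fin (N + 1)) (s : unitInterval),
        dist ((q.2.2 i : Metric.closedBall (0 : ℂ) R) : ℂ) q.1.2 ^ B ≤
          M * dist ((q.2.2 i : Metric.closedBall (0 : ℂ) R) : ℂ) (q.1.1 s) + e}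
  have hev : ∀ i : Fin (N + 1), Continuous (fun q : (C(unitInterval, ℂ) × ℂ) × (unitInterval ×
      (Fin (N + 1) → Metric.closedBall (0 : ℂ) R)) =>
      ((q.2.2 i : Metric.closedBall (0 : ℂ) R) : ℂ)) := by
    intro i
    fun_prop
  have hz : Continuous (fun q : (C(unitInterval, ℂ) × ℂ) × (unitInterval ×
      (Fin (N + 1) → Metric.closedBall (0 : ℂ) R)) => q.1.2) := by fun_prop
  have hs : Continuous (fun q : (C(unitInterval, ℂ) × ℂ) × (unitInterval ×
      (Fin (N + 1) → Metric.closedBall (0 : ℂ) R)) => (q.2.1 : ℝ)) := by fun_prop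
  have hC : IsClosed C := by
    refine IsClosed.inter (isClosed_le hz.norm continuous_const) (IsClosed.inter (IsClosed.inter
      (isClosed_le hs continuous_const) ?_) (IsClosed.inter
      ?_ (IsClosed.inter ?_ (IsClosed.inter ?_ ?_))))
    · refine isClosed_le (Continuous.dist ?_ hz) continuous_const
      exact continuous_eval.comp ((continuous_fst.comp continuous_fst).prodMk
        (continuous_fst.comp continuous_snd))
    · exact isClosed_le ((hev 0).dist hz) continuous_const
    · exact isClosed_le continuous_const (((hev (Fin.last N)).dist hz).add continuous_const)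
    · have : {q : (C(unitInterval, ℂ) × ℂ) × (unitInterval × (Fin (N + 1) →
          Metric.closedBall (0 : ℂ) R)) | ∀ i : Fin N,
          dist ((q.2.2 i.castSucc : Metric.closedBall (0 : ℂ) R) : ℂ)
          ((q.2.2 i.succ : Metric.closedBall (0 : ℂ) R) : ℂ) ≤ e} = ⋂ i : Fin N,
          {q | dist ((q.2.2 i.castSucc : Metric.closedBall (0 : ℂ) R) : ℂ)
          ((q.2.2 i.succ : Metric.closedBall (0 : ℂ) R) : ℂ) ≤ e} := by
        ext q; simp only [Set.mem_iInter, Set.mem_setOf_eq]
      have h2 : IsClosed {q : (C(unitInterval, ℂ) × ℂ) × (unitInterval × (Fin (N + 1) →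
          Metric.closedBall (0 : ℂ) R)) | ∀ i : Fin N,
          dist ((q.2.2 i.castSucc : Metric.closedBall (0 : ℂ) R) : ℂ)
          ((q.2.2 i.succ : Metric.closedBall (0 : ℂ) R) : ℂ) ≤ e} := by
        rw [this]
        exact isClosed_iInter fun i =>
          isClosed_le ((hev i.castSucc).dist (hev i.succ)) continuous_const
      exact h2
    · have : {q : (C(unitInterval, ℂ) × ℂ) × (unitInterval × (Fin (N + 1) →
          Metric.closedBall (0 : ℂ) R)) | ∀ (i : Fin (N + 1)) (s : unitInterval),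
          dist ((q.2.2 i : Metric.closedBall (0 : ℂ) R) : ℂ) q.1.2 ^ B ≤
          M * dist ((q.2.2 i : Metric.closedBall (0 : ℂ) R) : ℂ) (q.1.1 s) + e} =
          ⋂ i : Fin (N + 1), ⋂ s : unitInterval,
          {q | dist ((q.2.2 i : Metric.closedBall (0 : ℂ) R) : ℂ) q.1.2 ^ B ≤
          M * dist ((q.2.2 i : Metric.closedBall (0 : ℂ) R) : ℂ) (q.1.1 s) + e} := by
        ext q; simp only [Set.mem_iInter, Set.mem_setOf_eq]
      have h2 : IsClosed {q : (C(unitInterval, ℂ) × ℂ) × (unitInterval × (Fin (N + 1) →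
          Metric.closedBall (0 : ℂ) R)) | ∀ (i : Fin (N + 1)) (s : unitInterval),
          dist ((q.2.2 i : Metric.closedBall (0 : ℂ) R) : ℂ) q.1.2 ^ B ≤
          M * dist ((q.2.2 i : Metric.closedBall (0 : ℂ) R) : ℂ) (q.1.1 s) + e} := by
        rw [this]
        refine isClosed_iInter fun i => isClosed_iInter fun s => ?_
        refine isClosed_le (((hev i).dist hz).pow B) ((continuous_const.mul
          ((hev i).dist ?_)).add continuous_const)
        exact (continuous_eval_const (F := C(unitInterval, ℂ)) s).comp (continuous_fst.comp continuous_fst)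
      exact h2
  have himg : Qct t M κ R e B N = Prod.fst '' C := by
    ext p
    constructor
    · rintro ⟨h1, ⟨s, hs⟩, x, hx, h2, h3, h4, h5⟩
      refine ⟨(p, (s, fun i => ⟨x i, ?_⟩)), ⟨h1, hs, h2, h3, h4, h5⟩, rfl⟩
      rw [mem_closedBall_zero_iff]
      exact hx i
    · rintro ⟨⟨p', s, x⟩, ⟨h1, hs, h2, h3, h4, h5⟩, rfl⟩
      refine ⟨h1, ⟨s, hs⟩, fun i => (x i : ℂ), fun i => ?_, h2, h3, h4, h5⟩
      exact mem_closedBall_zero_iff.mp (x i).2
  rw [himg]
  exact isClosedMap_fst_of_compactSpace C hC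

end Pool.Agent.Y989.HP.QCT
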