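import Pool.Agent.Y989.HP.Stm
import Pool.Agent.H984R4.HN.Perc

/-!
# HP-RETCUT: the cluster of a half-box, probabilities of events of the half-box
-/

set_option autoImplicit false

namespace Pool.Agent.Y989.HP.RETCUT

open Pool.Agent.Y989.HP
open H974 H12S Finset H984P MeasureTheory Filter Topology
open Pool.Agent.Y989.FR (GO3 GD3 E3 core3 AE Fro V3 Gd3)
open H984H (Conf perc path opn cut bx gam Ret_S)

theorem t_CUTP : S_CUTP := fun ρ A => H984H.perc_cut ρ A

theorem t_RETP : S_RETP := by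
  obtain ⟨κ, hκ, hW⟩ := H12S.win_half
  obtain ⟨C, c, hC, hc, harm⟩ := H12S.win_arm_of
    (fun h _ h1 h2 => fun c1 c2 S => H12S.win_blk h h1 h2 c1 c2 S) κ hκ
  refine ⟨max C 1, c, lt_of_lt_of_le hC (le_max_left _ _), hc, ?_⟩
  intro r R hr hrR
  rcases eq_or_lt_of_le hrR with h | hlt
  · subst h
    have hr0 : (r : ℝ) ≠ 0 := by
      have : (0:ℝ) < r := by exact_mod_cast (by omega : 0 < r)
      exact this.ne'
    rw [div_self hr0, Real.one_rpow, mul_one]
    exact measureReal_le_one.trans (le_max_right _ _)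
  · have h1 : perc.real {ω | ¬ ∀ u ∈ Ret_S ω r, H984H.sd u (0, 0) < R} ≤
        perc.real {ω | H12S.Crs 0 0 r R (↑(cut ω R) : Set Edg)} := by
      apply measureReal_mono
      · intro ω hω
        have hω' : ¬ ∀ u ∈ Ret_S ω r, H984H.sd u (0, 0) < R := hω
        push Not at hω'
        obtain ⟨v, hv, hv2⟩ := hω'
        exact H984H.Ret_arm ω hlt hv hv2
      · exact measure_ne_top _ _
    refine h1.trans ?_
    rw [H984H.perc_cut (R : ℤ) (fun F => H12S.Crs 0 0 r R (↑F : Set Edg))]
    have h2 := (harm (1/2) R (hW R) r R hr hrR le_rfl 0 0 (bx R).edges).1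
    refine h2.trans ?_
    have h3 : (0:ℝ) ≤ ((r:ℝ) / R) ^ c := by positivity
    exact mul_le_mul_of_nonneg_right (le_max_left C 1) h3

end Pool.Agent.Y989.HP.RETCUT
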