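import Pool.Agent.Y989.HP.Lim
import Pool.Agent.Y989.HP.T_DETV
import Pool.Agent.Y989.HP.T_DETT
import Pool.Agent.Y989.HP.T_RETCUT
import Pool.Agent.Y989.HP.T_QCT
import Pool.Agent.Y989.HP.T_GEOT
import Pool.Agent.Y989.FR.All
import Pool.Agent.Results.MP_6c8efb_pr.Displacement

/-!
# Sides of the past in the half-plane: all the steps
-/

set_option autoImplicit false

namespace Pool.Agent.Y989.HP

open MeasureTheory Filter Topology
open H984H (lawH)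
open scoped ENNReal

theorem a_TAIL : LIM.S_TAIL := by
  obtain ⟨a, A, -, hA, h⟩ := Pool.Agent.Results.MP_6c8efb_pr.Displacement.result.2.2.2.1
  exact ⟨A, hA, fun n x hn hx => (h n x hn hx).2⟩

/-- **the lower bound for the limits** -/
theorem a_LIMH {φ : ℕ → ℕ} (hφ : Tendsto φ atTop atTop)
    {μ : ProbabilityMeasure C(unitInterval, ℂ)} (hμ : Tendsto (fun i => lawH (φ i)) atTop (𝓝 μ))
    {t : ℝ} (ht : 0 < t) (ht1 : t < 4 / 3) {t0 : ℝ} (h0 : 0 < t0) (h01 : t0 ≤ 1) {ρ0 : ℝ}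
    (hρ0 : 0 < ρ0) :
    ∀ᵐ f : C(unitInterval, ℂ) ∂(μ : Measure C(unitInterval, ℂ)),
      ENNReal.ofReal t ≤ dimH (LIM.Per t0 ρ0 f) :=
  LIM.t_LIMH FR.a_GOOD3 FR.IND3.t_IND3 DETV.t_DETV DETT.t_DETT RETCUT.t_RETP RETCUT.t_CUTP
    QCT.t_QCT GEOT.t_GEOT FR.CHN.t_CHN FR.LG.t_LG a_TAIL hφ hμ ht ht1 h0 h01 hρ0

/-- The dimension of the permanent points is at least `4 / 3`. -/
theorem lower {φ : ℕ → ℕ} (hφ : Tendsto φ atTop atTop)
    {μ : ProbabilityMeasure C(unitInterval, ℂ)} (hμ : Tendsto (fun i => lawH (φ i)) atTop (𝓝 μ)) :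
    ∀ᵐ f : C(unitInterval, ℂ) ∂(μ : Measure C(unitInterval, ℂ)), ∀ t : ℝ, 0 < t → ∀ r : ℝ,
      0 < r → 4 / 3 ≤ dimH (LIM.Per t r f) := by
  have hlow : ∀ᵐ f : C(unitInterval, ℂ) ∂(μ : Measure C(unitInterval, ℂ)), ∀ n m q : ℕ,
      ENNReal.ofReal (4 / 3 - 1 / ((n : ℝ) + 2)) ≤
        dimH (LIM.Per (1 / ((q : ℝ) + 1)) (1 / ((m : ℝ) + 1)) f) := by
    rw [ae_all_iff]
    intro n
    rw [ae_all_iff]
    intro m
    rw [ae_all_iff]
    intro q
    have hn : (0 : ℝ) ≤ n := Nat.cast_nonneg n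
    have hq : (0 : ℝ) ≤ q := Nat.cast_nonneg q
    have h1 : 1 / ((n : ℝ) + 2) ≤ 1 / 2 := one_div_le_one_div_of_le (by norm_num) (by linarith)
    have h2 : 0 < 1 / ((n : ℝ) + 2) := by positivity
    have h3 : 1 / ((q : ℝ) + 1) ≤ 1 := by
      rw [div_le_one (by positivity)]; linarith
    exact a_LIMH hφ hμ (by linarith) (by linarith) (by positivity) h3 (by positivity)
  filter_upwards [hlow] with f hf t ht r hr
  obtain ⟨q, hq⟩ := exists_nat_one_div_lt ht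
  obtain ⟨m, hm⟩ := exists_nat_one_div_lt hr
  have hsub : LIM.Per (1 / ((q : ℝ) + 1)) (1 / ((m : ℝ) + 1)) f ⊆ LIM.Per t r f := by
    rintro z ⟨h1, h2, h3⟩
    exact ⟨h1, h2.trans hm, fun t' ht' => h3 t' (hq.le.trans ht')⟩
  refine le_trans ?_ (dimH_mono hsub)
  have hlim : Tendsto (fun n : ℕ => ENNReal.ofReal (4 / 3 - 1 / ((n : ℝ) + 2))) atTop
      (𝓝 (ENNReal.ofReal (4 / 3 - 0))) := by
    apply ENNReal.tendsto_ofReal
    apply Tendsto.sub tendsto_const_nhds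
    have h := (tendsto_one_div_add_atTop_nhds_zero_nat (𝕜 := ℝ)).comp (tendsto_add_atTop_nat 1)
    refine h.congr fun n => ?_
    simp only [Function.comp_apply]
    push_cast
    ring
  rw [sub_zero] at hlim
  rw [FR.e43]
  exact le_of_tendsto' hlim fun n => hf n m q

end Pool.Agent.Y989.HP
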