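import Pool.Agent.Y989.HP.Lim
import Pool.Agent.Y989.HP.T_DETV
import Pool.Agent.Y989.HP.T_RETCUT
import Pool.Agent.TH966.DP.DD
import Pool.Agent.Y989.HP.T_GEOT
import Pool.Agent.W52.DPInd

/-!
# Double points of the past in the half-plane: lower bound for the limits
-/

set_option autoImplicit false

namespace Pool.Agent.Y989.HP.LIMD

open H974 hiding dl
open H12S Finset H984P MeasureTheory Filter Topology
open Pool.Agent.H389R2.Dim (Good good_of_energy)
open Pool.Agent.TH966.DP (zp zp_dist zp_inj pl_node nt nt_mul nt_le SA_sub DD isClosed_good_DD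
  ae_dimX DD_zero)
open Pool.Agent.W92.DP (SA GO GD core4 E4 V4 En4 Gd4 DPt St_good St_ind St_det)
open Pool.Agent.Y989.HP.LIM (dl dl_pos place_zp curve_near curve_vis reach_small S_TAIL
  exists_small)
open Pool.Agent.Y989.HP.GEOT (mT range_mT)
open Pool.Agent.Y989.HP.DETV (bxN cutz cfg_eq walk_eq len_eq bxN_ok cutz_sub mem_cutz cutz_cut om
  om_iff rev)
open H984H (Conf perc path opn cut bx gam Ret_S lawH curve reach place lawH_apply)
open scoped ENNReal NNReal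

/-! ### the deterministic part -/

/-- If the box path is at the times `i < j < l` and at the vertex `v` of the half-box of radius `r`
at the time `i`, the path of the half-plane does the same. -/
theorem transfer {ω : Conf} {ρ R r : ℤ} (hr : 0 ≤ r) (hrR : r < R) (hRρ : R < ρ)
    (hS : ∀ u ∈ Ret_S ω r, H984H.sd u (0, 0) < R) {i : ℕ} (hi : i < (bx ρ).len (cut ω ρ))
    (hv : H984H.sd ((bx ρ).walk (cut ω ρ) i).1 (0, 0) ≤ r) :
    ∀ k ≤ (bx ρ).len (cut ω ρ) - 1 - i, path ω k =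
      (bx ρ).walk (cut ω ρ) ((bx ρ).len (cut ω ρ) - 1 - k) ∧
      H984H.sd (path ω k).1 (0, 0) < R := by
  have hρ : 1 ≤ ρ := by omega
  set L := (bx ρ).len (cut ω ρ) with hLdef
  have hl : path (om ω ρ) (L - 1 - i) = (bx ρ).walk (cut ω ρ) i := by
    rw [rev hρ ω (by omega), ← hLdef, show L - 1 - (L - 1 - i) = i by omega]
  have hS' : ∀ u ∈ Ret_S (om ω ρ) r, H984H.sd u (0, 0) < R := by
    rintro u ⟨u0, h1, h2, h3⟩
    apply hS
    induction h3 with
    | refl => exact ⟨u0, h1, h2, Reach.refl _ _⟩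
    | @tail b c _ hs ih =>
      obtain ⟨e, he, hc⟩ := hs
      have hb := hS _ ih
      have h0 := H984H.Ret_S_nonneg ih
      refine H984H.Ret_S_closed ih ⟨e, ?_, hc⟩
      obtain ⟨k1, k2, k3⟩ := he
      have hcv : src e = b ∨ tgt e = b := by
        rcases hc with h | h
        · exact Or.inl h.1
        · exact Or.inr h.2
      have h4 := (H984H.cfg_opn hρ ω h0 (hb.trans hRρ) hcv).1 (om_iff.1 k3)
      rcases h4 with h5 | h5
      · exact absurd ⟨h5.1, h5.2.1⟩ k2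
      · exact ⟨k1, k2, h5.2.2⟩
  have hk : ∀ k ≤ L - 1 - i, H984H.sd (path (om ω ρ) k).1 (0, 0) < R := by
    intro k hk
    by_contra h
    exact H984H.Ret_det (om ω ρ) hr hrR hS' hk (not_lt.1 h) (by rw [hl]; exact hv)
  have key : ∀ k, k ≤ L - 1 - i → path ω k = path (om ω ρ) k := by
    intro k
    induction k using Nat.strong_induction_on with
    | _ k ih =>
      intro hkl
      have hj : ∀ j < k, H984H.sd (path ω j).1 (0, 0) < ρ := fun j hj => by
        rw [ih j hj (by omega)]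
        exact (hk j (by omega)).trans hRρ
      have h1 := (H984H.couple hρ ω hj).2
      rw [← h1, rev hρ ω (by omega)]
  intro k hkl
  rw [key k hkl]
  exact ⟨rev hρ ω (by omega), hk k hkl⟩

/-- Edges off the axis. -/
theorem cutz_off {ω : Conf} {ρ : ℤ} {e : Edg} (h : 0 < e.2.1 ∨ e.2.2 = false) :
    e ∈ cutz ω ρ ↔ e ∈ cut ω ρ := by
  refine ⟨fun he => cutz_cut ω ρ he, fun he => mem_cutz he ?_⟩
  rintro ⟨h1, h2, -⟩
  rcases h with h | h
  · omega
  · rw [h] at h1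
    exact absurd h1 (by simp)

theorem GO_cutz {U : ℤ} (hU : 1 ≤ U) {ω : Conf} {ρ : ℤ} (h : GO U (cut ω ρ)) :
    GO U (cutz ω ρ) := by
  obtain ⟨⟨y, y', hy, hy', h1⟩, ⟨x, x', hx, hx', h2⟩⟩ := h
  refine ⟨⟨y, y', hy, hy', h1.mono ?_⟩, ⟨x, x', hx, hx', h2.mono ?_⟩⟩
  · rintro e ⟨he1, he2⟩
    refine ⟨(cutz_off ?_).2 he1, he2⟩
    obtain ⟨p, q, b⟩ := e
    cases b
    · exact Or.inr rfl
    · rw [Finset.mem_coe, mem_LRE_true] at he2
      left
      simp only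
      omega
  · rintro e ⟨he1, he2⟩
    refine ⟨(cutz_off ?_).2 he1, he2⟩
    obtain ⟨p, q, b⟩ := e
    cases b
    · exact Or.inr rfl
    · rw [Finset.mem_coe, mem_TBE_true] at he2
      left
      simp only
      omega

theorem GD_cutz {U : ℤ} {ω : Conf} {ρ : ℤ} (h : GD U (cut ω ρ)) : GD U (cutz ω ρ) := by
  have hs : cutz ω ρ ⊆ cut ω ρ := cutz_cut ω ρ
  obtain ⟨⟨⟨x1, x1', a1, b1, h1⟩, ⟨x2, x2', a2, b2, h2⟩⟩, ⟨x3, x3', a3, b3, h3⟩⟩ := h
  refine ⟨⟨⟨x1, x1', a1, b1, h1.mono ?_⟩, ⟨x2, x2', a2, b2, h2.mono ?_⟩⟩,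
    ⟨x3, x3', a3, b3, h3.mono ?_⟩⟩
  all_goals exact_mod_cast Finset.sdiff_subset_sdiff subset_rfl hs

theorem E4_cutz {L m : ℕ} (hL : 1 ≤ L) (hm : 1 ≤ m) {ω : Conf} {ρ : ℤ} {v : Vtx}
    (hv : v ∈ core4 (L * m : ℕ)) (h : E4 L m v (cut ω ρ)) : E4 L m v (cutz ω ρ) := by
  have hmL : m ≤ L * m := Nat.le_mul_of_pos_left m hL
  have e4 : 4 * L * m = 4 * (L * m) := by ring
  have e16 : 16 * L * m = 16 * (L * m) := by ring
  have hU : (1 : ℤ) ≤ ((L * m : ℕ) : ℤ) := by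
    have : 0 < L * m := Nat.mul_pos hL hm
    omega
  have hv2 := Pool.Agent.W52.DPInd.mem_core4.1 hv
  have key : ∀ X : Finset Edg, X ⊆ boxE (16 * L * m) →
      Pool.Agent.W92.DP.shc v ↑(cut ω ρ) ∩ (↑X : Set Edg) =
      Pool.Agent.W92.DP.shc v ↑(cutz ω ρ) ∩ (↑X : Set Edg) := by
    intro X hX
    ext e
    constructor
    · rintro ⟨h1, h2⟩
      refine ⟨?_, h2⟩
      have h3 : ((e.1 + v.1, e.2.1 + v.2, e.2.2) : Edg) ∈ cut ω ρ := h1
      refine (cutz_off (Or.inl ?_)).2 h3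
      have h4 := hX (Finset.mem_coe.1 h2)
      unfold boxE at h4
      simp only
      rw [e16] at h4
      obtain ⟨x, y, _ | _⟩ := e
      · rw [mem_RE_false] at h4
        simp only
        push_cast at h4 hv2 hU ⊢
        omega
      · rw [mem_RE_true] at h4
        simp only
        push_cast at h4 hv2 hU ⊢
        omega
    · rintro ⟨h1, h2⟩
      exact ⟨cutz_cut ω ρ h1, h2⟩
  obtain ⟨β, h1, h2⟩ := h
  refine ⟨β, ?_, (cutz_off (Or.inl ?_)).2 h2⟩
  · unfold Plus at h1 ⊢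
    rw [← key _ (Pool.Agent.W52.DPInd.XV_sub (by omega) (by omega)),
      ← key _ (Pool.Agent.W52.DPInd.XH_sub (by omega) (by omega))]
    exact h1
  · simp only
    omega

/-- A vertex of the core with the event `E4` is visited twice, with a large excursion in between,
before the path leaves the box of radius `R`. -/
theorem detd (hdet : St_det) {ω : Conf} {ρ R r : ℤ} {L m : ℕ} (hL : 2 ≤ L) (hm : 64 ≤ m)
    (hr : 30 * ((L * m : ℕ) : ℤ) ≤ r) (hrR : r < R) (hRρ : R < ρ) (hρ : 39 * ((L * m : ℕ) : ℤ) < ρ)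
    (hS : ∀ u ∈ Ret_S ω r, H984H.sd u (0, 0) < R) (hGO : GO (L * m : ℕ) (cut ω ρ))
    (hGD : GD (L * m : ℕ) (cut ω ρ)) {v : Vtx} (hv : v ∈ core4 (L * m : ℕ))
    (hE : E4 L m v (cut ω ρ)) :
    ∃ i j l : ℕ, i < j ∧ j < l ∧ (path ω i).1 = v ∧ (path ω l).1 = v ∧
      15 * ((L * m : ℕ) : ℤ) ≤ H984N.sd (path ω j).1 v ∧
      ∀ k ≤ l, H984H.sd (path ω k).1 (0, 0) < R := by
  have hU : (1 : ℤ) ≤ ((L * m : ℕ) : ℤ) := by
    have : 0 < L * m := Nat.mul_pos (by omega) (by omega)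
    omega
  have hρ1 : 1 ≤ ρ := by omega
  obtain ⟨i, j, l, h1, h2, h3, h4, h5, h6⟩ := hdet (bxN ρ) (cutz ω ρ) (bxN_ok hρ1)
    (cutz_sub ω ρ) L m hL hm (by simp only [bxN]; omega) (by simp only [bxN]; omega)
    (by simp only [bxN]; omega) (GO_cutz hU hGO) (GD_cutz hGD) v hv
    (E4_cutz (by omega) (by omega) hv hE)
  rw [len_eq] at h3
  rw [walk_eq] at h4 h5 h6
  set N := (bx ρ).len (cut ω ρ) with hN
  have hv2 := Pool.Agent.W52.DPInd.mem_core4.1 hv
  have hvr : H984H.sd ((bx ρ).walk (cut ω ρ) i).1 (0, 0) ≤ r := by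
    rw [h4, H984H.Ret_sd]
    refine max_le (abs_le.2 ?_) (abs_le.2 ?_) <;> omega
  have ht := transfer (by omega) hrR hRρ hS (i := i) (by omega) hvr
  rw [← hN] at ht
  have hlN : l < N := by
    rcases lt_or_eq_of_le h3 with h | h
    · exact h
    · exfalso
      have hL' := H984H.walk_len (H984H.bx_ok hρ1) (H984H.Couple_cut_sub ω ρ)
      rw [h, hL'] at h5
      have h7 : v = (H984H.Dm.stop).1 := h5.symm
      have h8 : (H984H.Dm.stop).1 = (0, 0) := rfl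
      rw [h8] at h7
      rw [h7] at hv2
      simp only at hv2
      omega
  refine ⟨N - 1 - l, N - 1 - j, N - 1 - i, by omega, by omega, ?_, ?_, ?_,
    fun k hk => (ht k hk).2⟩
  · rw [(ht (N - 1 - l) (by omega)).1, show N - 1 - (N - 1 - l) = l by omega, h5]
  · rw [(ht (N - 1 - i) le_rfl).1, show N - 1 - (N - 1 - i) = i by omega, h4]
  · rw [(ht (N - 1 - j) (by omega)).1, show N - 1 - (N - 1 - j) = j by omega]
    exact h6

/-! ### the limit -/

/-- Passage to the limit for the curve up to time `t0`. -/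
theorem aeD (μs : ℕ → ProbabilityMeasure C(unitInterval, ℂ))
    (μ : ProbabilityMeasure C(unitInterval, ℂ)) (hμ : Tendsto μs atTop (𝓝 μ)) {t : ℝ} (ht : 0 < t)
    (t0 : unitInterval) (T : C(unitInterval, ℂ) → Set ℂ)
    (h : ∀ ε : ℝ≥0∞, 0 < ε → ∃ (c η : ℝ) (B : Set ℂ), 0 < c ∧ IsCompact B ∧
      (∀ f, DD η 0 B f ⊆ T f) ∧ ∀ ε' : ℝ, 0 < ε' → ∀ᶠ i in atTop,
        (μs i : Measure C(unitInterval, ℂ)) {f | ¬ Good t ε' c (DD η ε' B (f.comp (mT t0)))} ≤ ε) :
    ∀ᵐ f : C(unitInterval, ℂ) ∂(μ : Measure C(unitInterval, ℂ)),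
      ENNReal.ofReal t ≤ dimH (T (f.comp (mT t0))) := by
  have hc0 : Continuous (fun f : C(unitInterval, ℂ) => f.comp (mT t0)) :=
    ContinuousMap.continuous_precomp (mT t0)
  have hc : Continuous (fun f : C(unitInterval, ℂ) => ((f.comp (mT t0), (0 : ℝ)) : H984N.X)) :=
    hc0.prodMk continuous_const
  have hm : Measurable (fun f : C(unitInterval, ℂ) => ((f.comp (mT t0), (0 : ℝ)) : H984N.X)) :=
    hc0.measurable.prodMk measurable_const
  have h1 := ProbabilityMeasure.tendsto_map_of_tendsto_of_continuous μs μ hμ hc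
  have h2 := ae_dimX h1 ht T ?_
  · exact ae_of_ae_map hm.aemeasurable h2
  · intro ε hε
    obtain ⟨c, η, B, h3, h4, h5, h7⟩ := h ε hε
    refine ⟨c, η, B, h3, h4, h5, fun ε' hε' => ?_⟩
    filter_upwards [h7 ε' hε'] with i hi
    have hopen : IsOpen {γ : H984N.X | ¬ Good t ε' c (DD η ε' B γ.1)} :=
      ((isClosed_good_DD h4).preimage continuous_fst).isOpen_compl
    have e1 : ((μs i).map hc.measurable.aemeasurable : Measure H984N.X)
        {γ : H984N.X | ¬ Good t ε' c (DD η ε' B γ.1)} =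
        (μs i : Measure C(unitInterval, ℂ)) {f | ¬ Good t ε' c (DD η ε' B (f.comp (mT t0)))} := by
      rw [ProbabilityMeasure.toMeasure_map, Measure.map_apply hm hopen.measurableSet]
      rfl
    exact (le_of_eq e1).trans hi

/-- Division of the time. -/
theorem exists_mT {t0 : unitInterval} (h0 : 0 < (t0 : ℝ)) {s : unitInterval}
    (h : (s : ℝ) ≤ t0) : ∃ s' : unitInterval, (s' : ℝ) = s / t0 ∧ t0 * s' = s := by
  refine ⟨⟨s / t0, div_nonneg s.2.1 t0.2.1, (div_le_one h0).2 h⟩, rfl, ?_⟩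
  apply Subtype.ext
  rw [Set.Icc.coe_mul]
  show (t0 : ℝ) * (s / t0) = s
  field_simp

/-- A vertex which is visited twice with an excursion in between. -/
theorem mem_DD {n : ℕ} (hn : 0 < n) {t0 : unitInterval} (h0 : 0 < (t0 : ℝ)) {ω : Conf} {v : Vtx}
    {i j l : ℕ} (hij : i < j) (hjl : j < l) (hl : l ≤ n) (hlt : (l : ℝ) ≤ t0 * n)
    (h1 : (path ω i).1 = v) (h2 : (path ω l).1 = v) {u : ℝ}
    (h3 : u ≤ ((H984N.sd (path ω j).1 v : ℤ) : ℝ))
    {η ε : ℝ} {B : Set ℂ} (hB : zp (dl n) v ∈ B) (hε : 2 * dl n ≤ ε) (hη : η ≤ dl n * u) :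
    zp (dl n) v ∈ DD η ε B ((curve n ω).comp (mT t0)) := by
  have hδ := dl_pos hn
  have hn' : (0 : ℝ) < n := by exact_mod_cast hn
  have hex : ∀ (k : ℕ) (hk : k ≤ l), ∃ s : unitInterval, (s : ℝ) = (k / n : ℝ) / t0 ∧
      dist (((curve n ω).comp (mT t0)) s) (zp (dl n) (path ω k).1) ≤ 2 * dl n := by
    intro k hk
    have hkn : k ≤ n := hk.trans hl
    have hk1 : ((nt n k hkn : unitInterval) : ℝ) = k / n := rfl
    have hk2 : (k : ℝ) ≤ t0 * n := le_trans (by exact_mod_cast hk) hlt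
    obtain ⟨s, hs1, hs2⟩ := exists_mT h0 (s := nt n k hkn) (by
      rw [hk1, div_le_iff₀ hn']; exact hk2)
    refine ⟨s, by rw [hs1, hk1], ?_⟩
    show dist (curve n ω (t0 * s)) _ ≤ _
    rw [hs2]
    exact curve_vis hn ω hkn
  obtain ⟨s1, e1, d1⟩ := hex i (by omega)
  obtain ⟨s2, e2, d2⟩ := hex j (by omega)
  obtain ⟨s3, e3, d3⟩ := hex l le_rfl
  have mono : ∀ a b : ℕ, a ≤ b → ((a : ℝ) / n) / t0 ≤ ((b : ℝ) / n) / t0 := by
    intro a b hab
    have : (a : ℝ) ≤ b := by exact_mod_cast hab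
    gcongr
  refine ⟨hB, s1, s3, ?_, ?_, ?_, s2, ⟨?_, ?_⟩, ?_⟩
  · show (s1 : ℝ) ≤ s3
    rw [e1, e3]; exact mono _ _ (by omega)
  · rw [← h1]; exact d1.trans hε
  · rw [← h2]; exact d3.trans hε
  · show (s1 : ℝ) ≤ s2
    rw [e1, e2]; exact mono _ _ (by omega)
  · show (s2 : ℝ) ≤ s3
    rw [e2, e3]; exact mono _ _ (by omega)
  · have h4 := zp_dist hδ.le (path ω j).1 v
    have h5 := mul_le_mul_of_nonneg_left h3 hδ.le
    have h6 := dist_triangle (zp (dl n) (path ω j).1) (((curve n ω).comp (mT t0)) s2) (zp (dl n) v)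
    rw [dist_comm (zp (dl n) (path ω j).1) (((curve n ω).comp (mT t0)) s2)] at h6
    linarith

/-- The good event makes the set of approximate double points good. -/
theorem good_of_Gd {n : ℕ} (hn : 0 < n) {L m : ℕ} (hm : 64 ≤ m) {F : Finset Edg}
    {c0 E0 t : ℝ} (h : Gd4 c0 E0 t L m F) (hc0 : 0 < c0)
    (hE0 : 0 < E0) (ht : 0 < t) {ε' : ℝ} {T : Set ℂ}
    (hT : ∀ v ∈ V4 L m F, zp (dl n) v ∈ T) (hε : dl n ≤ ε')
    {κ : ℝ} (hκ : 0 < κ) (hκ' : κ ≤ dl n * m) :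
    Good t ε' (2 ^ (-t) / (E0 / c0 ^ 2 * κ ^ (-t))) T := by
  classical
  have hδ := dl_pos hn
  set δ : ℝ := dl n with hδdef
  obtain ⟨-, hcard, hEn⟩ := h
  have hm' : (0:ℝ) < m := by
    have : 0 < m := by omega
    exact_mod_cast this
  have hcpos : (0 : ℝ) < ((V4 L m F).card : ℝ) := lt_of_lt_of_le (by positivity) hcard
  have hne : (V4 L m F).Nonempty := by
    rw [← Finset.card_pos]; exact_mod_cast hcpos
  have hε0 : 0 < ε' := hδ.trans_le hε
  refine good_of_energy hε0 ht.le (by positivity) ((V4 L m F).image (zp δ)) (hne.image _) ?_ ?_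
  · intro z hz
    rw [Finset.mem_coe, Finset.mem_image] at hz
    obtain ⟨v, hv, rfl⟩ := hz
    exact hT v hv
  · rw [Finset.sum_image (fun a _ b _ hab => zp_inj hδ hab),
      Finset.card_image_of_injective _ (zp_inj hδ)]
    have e1 : ∀ v ∈ V4 L m F, ∑ y ∈ (V4 L m F).image (zp δ), (max (dist (zp δ v) y) ε') ^ (-t) ≤
        ∑ w ∈ V4 L m F, δ ^ (-t) * ((max (H984N.sd v w) 1 : ℤ) : ℝ) ^ (-t) := by
      intro v _
      rw [Finset.sum_image (fun a _ b _ hab => zp_inj hδ hab)]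
      refine Finset.sum_le_sum fun w _ => ?_
      have hm : (1 : ℝ) ≤ ((max (H984N.sd v w) 1 : ℤ) : ℝ) := by
        exact_mod_cast le_max_right (H984N.sd v w) 1
      rw [← Real.mul_rpow (by positivity) (by linarith)]
      refine Real.rpow_le_rpow_of_nonpos (by positivity) ?_ (by linarith)
      have h6 := zp_dist hδ.le v w
      rcases max_cases (H984N.sd v w) 1 with h | h
      · rw [h.1]; exact h6.trans (le_max_left _ _)
      · rw [h.1]; push_cast; rw [mul_one]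
        exact hε.trans (le_max_right _ _)
    refine (Finset.sum_le_sum e1).trans ?_
    have e2 : ∑ v ∈ V4 L m F, ∑ w ∈ V4 L m F, δ ^ (-t) * ((max (H984N.sd v w) 1 : ℤ) : ℝ) ^ (-t)
        = δ ^ (-t) * En4 t L m F := by
      unfold En4
      rw [Finset.mul_sum]
      refine Finset.sum_congr rfl fun v _ => ?_
      rw [Finset.mul_sum]
    rw [e2]
    have e3 : (c0 * (m : ℝ) ^ (3/4 : ℝ)) ^ 2 ≤ ((V4 L m F).card : ℝ) ^ 2 :=
      pow_le_pow_left₀ (by positivity) hcard 2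
    have e4 : (c0 * (m : ℝ) ^ (3/4 : ℝ)) ^ 2 = c0 ^ 2 * (m : ℝ) ^ (3/2 : ℝ) := by
      rw [mul_pow, ← Real.rpow_natCast ((m : ℝ) ^ (3/4 : ℝ)) 2, ← Real.rpow_mul hm'.le]
      norm_num
    rw [e4] at e3
    have e6 : (δ * m) ^ (-t) ≤ κ ^ (-t) :=
      Real.rpow_le_rpow_of_nonpos hκ hκ' (by linarith)
    calc δ ^ (-t) * En4 t L m F ≤ δ ^ (-t) * (E0 * (m : ℝ) ^ (3/2 - t)) :=
          mul_le_mul_of_nonneg_left hEn (by positivity)
      _ = E0 / c0 ^ 2 * (δ * m) ^ (-t) * (c0 ^ 2 * (m : ℝ) ^ (3/2 : ℝ)) := by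
          have : (m : ℝ) ^ (3/2 - t) = (m:ℝ) ^ (-t) * (m : ℝ) ^ (3/2 : ℝ) := by
            rw [← Real.rpow_add hm']
            congr 1
            ring
          rw [this, Real.mul_rpow hδ.le hm'.le]
          field_simp
      _ ≤ E0 / c0 ^ 2 * κ ^ (-t) * (c0 ^ 2 * (m : ℝ) ^ (3/2 : ℝ)) := by
          refine mul_le_mul_of_nonneg_right ?_ (by positivity)
          exact mul_le_mul_of_nonneg_left e6 (by positivity)
      _ ≤ E0 / c0 ^ 2 * κ ^ (-t) * ((V4 L m F).card : ℝ) ^ 2 :=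
          mul_le_mul_of_nonneg_left e3 (by positivity)


/-- The double points in a half-disc. -/
def Dbl (ρ0 : ℝ) (g : C(unitInterval, ℂ)) : Set ℂ :=
  {z | 0 < z.im ∧ ‖z‖ < ρ0 ∧ ∃ s t : unitInterval, s < t ∧ g s = z ∧ g t = z}

theorem mem_V4 {L m : ℕ} {v : Vtx} {F : Finset Edg} (hv : v ∈ V4 L m F) :
    v ∈ core4 (L * m : ℕ) ∧ E4 L m v F := by
  classical
  unfold V4 at hv
  exact Finset.mem_filter.1 hv

theorem DPt_dbl {η : ℝ} (hη : 0 < η) {f : C(unitInterval, ℂ)} {z : ℂ} (hz : z ∈ DPt η f) :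
    ∃ s t : unitInterval, s < t ∧ f s = z ∧ f t = z := by
  obtain ⟨s, u, t, h1, h2, h3, h4, h5⟩ := hz
  refine ⟨s, t, lt_of_le_of_ne (h1.trans h2) ?_, h3, h4⟩
  rintro rfl
  have h6 : u = s := le_antisymm h2 h1
  rw [h6, h3, dist_self] at h5
  linarith

theorem t_LIMD (hgood : St_good) (hind : St_ind) (hdet : St_det)
    (hretp : S_RETP) (hcut : S_CUTP) (htail : S_TAIL) {φ : ℕ → ℕ} (hφ : Tendsto φ atTop atTop)
    {μ : ProbabilityMeasure C(unitInterval, ℂ)} (hμ : Tendsto (fun i => lawH (φ i)) atTop (𝓝 μ))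
    {t : ℝ} (ht : 0 < t) (ht1 : t < 3 / 4) {t0 : unitInterval} (h0 : 0 < (t0 : ℝ)) {ρ0 : ℝ}
    (hρ0 : 0 < ρ0) :
    ∀ᵐ f : C(unitInterval, ℂ) ∂(μ : Measure C(unitInterval, ℂ)),
      ENNReal.ofReal t ≤ dimH (Dbl ρ0 (f.comp (mT t0))) := by
  refine aeD (fun i => lawH (φ i)) μ hμ ht t0 (Dbl ρ0) ?_
  intro ε hε
  have h01 : (t0 : ℝ) ≤ 1 := t0.2.2
  obtain ⟨δ', hδ', hδε⟩ : ∃ δ : ℝ, 0 < δ ∧ ENNReal.ofReal δ ≤ ε := by
    rcases eq_or_ne ε ∞ with h | h
    · exact ⟨1, one_pos, by rw [h]; exact le_top⟩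
    · exact ⟨ε.toReal, ENNReal.toReal_pos hε.ne' h, by rw [ENNReal.ofReal_toReal h]⟩
  obtain ⟨L, M, c0, E0, p, hL, hM, hc0, hE0, hp, hp1, hg⟩ := hgood t ht ht1
  obtain ⟨J, hJ⟩ := exists_pow_lt_of_lt_one (show 0 < δ' / 3 by positivity)
    (show 1 - p < 1 by linarith)
  obtain ⟨C, c, hC, hc, hret⟩ := hretp
  obtain ⟨u1, hu1, hu1', hu1''⟩ := exists_small (C := C) hc (show 0 < δ' / 3 by positivity)
  obtain ⟨K1, hK1⟩ : ∃ K1 : ℕ, K1 = max 2 ⌈1 / u1⌉₊ := ⟨_, rfl⟩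
  have hK12 : 2 ≤ K1 := by rw [hK1]; exact le_max_left _ _
  have hK1u : C * ((1 : ℝ) / K1) ^ c ≤ δ' / 3 := by
    have hK0 : (0 : ℝ) < K1 := by
      have : 0 < K1 := by omega
      exact_mod_cast this
    apply hu1'' _ (by positivity)
    rw [div_le_iff₀ hK0]
    have h2 : 1 / u1 ≤ K1 := by
      refine (Nat.le_ceil _).trans ?_
      rw [hK1]
      exact_mod_cast le_max_right _ _
    rwa [div_le_iff₀ hu1, mul_comm] at h2
  obtain ⟨A, hA, hAt⟩ := htail
  obtain ⟨x, hx, hx', hx''⟩ := exists_small (C := A) (show (0 : ℝ) < 7 / 4 by norm_num)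
    (show 0 < δ' / 3 by positivity)
  have hxA := hx'' x hx le_rfl
  -- the sizes
  obtain ⟨Q, hQ⟩ : ∃ Q : ℝ, Q = L * M * 64 ^ J := ⟨_, rfl⟩
  have hL' : (2:ℝ) ≤ L := by exact_mod_cast hL
  have hM' : (64:ℝ) ≤ M := by exact_mod_cast hM
  have h64 : (1:ℝ) ≤ 64 ^ J := one_le_pow₀ (by norm_num)
  have hLM : (1:ℝ) ≤ L * M := by nlinarith
  have hQ1 : 1 ≤ Q := by
    rw [hQ]
    exact one_le_mul_of_one_le_of_one_le hLM h64
  have hK1r : (2 : ℝ) ≤ K1 := by exact_mod_cast hK12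
  obtain ⟨Y, hY⟩ : ∃ Y : ℝ, Y = x * ((t0 : ℝ) / 2) ^ (4/7 : ℝ) := ⟨_, rfl⟩
  have hY0 : 0 < Y := by rw [hY]; positivity
  obtain ⟨s, hs⟩ : ∃ s : ℝ, s = min (Y / (240 * (K1 * Q))) (ρ0 / (320 * Q)) := ⟨_, rfl⟩
  have hs0 : 0 < s := by
    rw [hs]
    apply lt_min <;> positivity
  have hsY : 240 * (K1 * (Q * s)) ≤ Y := by
    have h2 : s ≤ Y / (240 * (K1 * Q)) := by rw [hs]; exact min_le_left _ _
    rw [le_div_iff₀ (by positivity)] at h2
    linarith
  have hsρ : 320 * (Q * s) ≤ ρ0 := by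
    have h2 : s ≤ ρ0 / (320 * Q) := by rw [hs]; exact min_le_right _ _
    rw [le_div_iff₀ (by positivity)] at h2
    linarith
  have hQs0 : 0 < Q * s := by positivity
  have hsQ : s ≤ Q * s := le_mul_of_one_le_left hs0.le hQ1
  set B : Set ℂ := Set.Icc (-(10 * (Q * s))) 0 ×ℂ
    Set.Icc (17 * (L * M) * (s / 2)) (20 * (Q * s)) with hBdef
  have hBc : IsCompact B := isCompact_Icc.reProdIm isCompact_Icc
  refine ⟨2 ^ (-t) / (E0 / c0 ^ 2 * (M * (s / 2)) ^ (-t)), 15 * (L * M) * (s / 2), B,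
    by positivity, hBc, ?_, ?_⟩
  · intro f z hz
    obtain ⟨h1, h2⟩ := DD_zero hz
    rw [hBdef, Complex.mem_reProdIm, Set.mem_Icc, Set.mem_Icc] at h1
    obtain ⟨⟨b1, b2⟩, b3, b4⟩ := h1
    have b5 : 0 < 17 * (L * M) * (s / 2) := by positivity
    refine ⟨by linarith, ?_, DPt_dbl (by positivity) h2⟩
    have e1 : ‖z‖ ≤ |z.re| + |z.im| := Complex.norm_le_abs_re_add_abs_im _
    have e2 : |z.re| ≤ 10 * (Q * s) := by
      rw [abs_le]; constructor <;> linarith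
    have e3 : |z.im| ≤ 20 * (Q * s) := by
      rw [abs_le]; constructor <;> linarith
    linarith
  · intro ε' hε'
    obtain ⟨δm, hδm⟩ : ∃ δm : ℝ, δm = min (min (Y / 4) (ε' / 4)) (s / 2) := ⟨_, rfl⟩
    have hδm0 : 0 < δm := by
      rw [hδm]
      exact lt_min (lt_min (by positivity) (by positivity)) (by positivity)
    have hsc : Tendsto (fun i => dl (φ i)) atTop (𝓝 0) :=
      (tendsto_rpow_neg_atTop (by norm_num : (0:ℝ) < 4/7)).comp
        (tendsto_natCast_atTop_atTop.comp hφ)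
    have hev : ∀ᶠ i in atTop, dl (φ i) < δm := (tendsto_order.1 hsc).2 _ hδm0
    have hev2 : ∀ᶠ i in atTop, 2 / (t0 : ℝ) ≤ ((φ i : ℕ) : ℝ) :=
      (tendsto_natCast_atTop_atTop.comp hφ).eventually_ge_atTop _
    filter_upwards [hev, hev2] with i hi hn2
    obtain ⟨n, hn⟩ : ∃ n, n = φ i := ⟨_, rfl⟩
    rw [← hn] at hi hn2 ⊢
    have hn0' : (0 : ℝ) < n := lt_of_lt_of_le (by positivity) hn2
    have hn0 : 0 < n := by exact_mod_cast hn0'
    have hi0 : dl n ≤ Y / 4 := hi.le.trans (by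
      rw [hδm]; exact (min_le_left _ _).trans (min_le_left _ _))
    have hi1 : dl n ≤ ε' / 4 := hi.le.trans (by
      rw [hδm]; exact (min_le_left _ _).trans (min_le_right _ _))
    have hi2 : dl n ≤ s / 2 := hi.le.trans (by
      rw [hδm]; exact min_le_right _ _)
    have hδi := dl_pos hn0
    set d : ℝ := dl n with hd
    have hopen : IsOpen {f : C(unitInterval, ℂ) | ¬ Good t ε'
        (2 ^ (-t) / (E0 / c0 ^ 2 * (M * (s / 2)) ^ (-t)))
        (DD (15 * (L * M) * (s / 2)) ε' B (f.comp (mT t0)))} :=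
      ((isClosed_good_DD hBc).preimage (ContinuousMap.continuous_precomp (mT t0))).isOpen_compl
    rw [lawH_apply n hopen.measurableSet]
    refine le_trans (ENNReal.ofReal_le_ofReal ?_) hδε
    -- the lattice scale
    obtain ⟨r, hr⟩ : ∃ r : ℕ, r = ⌊s / d⌋₊ := ⟨_, rfl⟩
    have hr1 : d * r ≤ s := by
      have := Nat.floor_le (show 0 ≤ s / d by positivity)
      rw [← hr, le_div_iff₀ hδi] at this
      linarith
    have hr2 : s / 2 ≤ d * r := by
      have := Nat.lt_floor_add_one (s / d)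
      rw [← hr, div_lt_iff₀ hδi, show ((r : ℝ) + 1) * d = d * r + d by ring] at this
      linarith
    have hr3 : 1 ≤ r := by
      rcases Nat.eq_zero_or_pos r with h | h
      · rw [h] at hr2; simp at hr2; linarith
      · exact h
    have hscale : ∀ j < J, ((L * (M * (64 ^ j * r)) : ℕ) : ℝ) ≤ Q * r := by
      intro j hj
      push_cast
      have h1 : (64 : ℝ) ^ j ≤ 64 ^ J := pow_le_pow_right₀ (by norm_num) hj.le
      have h2 : (0:ℝ) ≤ r := Nat.cast_nonneg r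
      rw [hQ]
      calc (L:ℝ) * (M * (64 ^ j * r)) = L * M * r * 64 ^ j := by ring
        _ ≤ L * M * r * 64 ^ J := mul_le_mul_of_nonneg_left h1 (by positivity)
        _ = L * M * 64 ^ J * r := by ring
    have hscaleN : ∀ j < J, L * (M * (64 ^ j * r)) ≤ L * (M * (64 ^ J * r)) := by
      intro j hj
      exact Nat.mul_le_mul_left _ (Nat.mul_le_mul_left _ (Nat.mul_le_mul_right r
        (Nat.pow_le_pow_right (by norm_num) hj.le)))
    have hscale2 : ∀ j : ℕ, (L * M : ℝ) * r ≤ ((L * (M * (64 ^ j * r)) : ℕ) : ℝ) := by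
      intro j
      push_cast
      have h1 : (1 : ℝ) ≤ 64 ^ j := one_le_pow₀ (by norm_num)
      calc (L * M : ℝ) * r = L * M * r * 1 := by ring
        _ ≤ L * M * r * 64 ^ j := mul_le_mul_of_nonneg_left h1 (by positivity)
        _ = (L:ℝ) * (M * (64 ^ j * r)) := by ring
    have hdQ : d * (Q * r) ≤ Q * s := by
      calc d * (Q * r) = Q * (d * r) := by ring
        _ ≤ Q * s := mul_le_mul_of_nonneg_left hr1 (by linarith)
    -- the boxes
    obtain ⟨W, hW⟩ : ∃ W : ℕ, W = L * (M * (64 ^ J * r)) := ⟨_, rfl⟩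
    rw [← hW] at hscaleN
    have hW1 : 1 ≤ W := by
      rw [hW]
      exact Nat.mul_pos (by omega) (Nat.mul_pos (by omega) (Nat.mul_pos (by positivity) (by omega)))
    obtain ⟨R1, hR1⟩ : ∃ R1 : ℕ, R1 = 30 * W := ⟨_, rfl⟩
    obtain ⟨R2, hR2⟩ : ∃ R2 : ℕ, R2 = K1 * R1 := ⟨_, rfl⟩
    have hR12 : R1 < R2 := by
      rw [hR2]
      have h1 : 1 ≤ R1 := by omega
      have h2 : 2 * R1 ≤ K1 * R1 := Nat.mul_le_mul_right _ hK12
      omega
    obtain ⟨ρ, hρ⟩ : ∃ ρ : ℤ, ρ = R2 + 39 * W + 1 := ⟨_, rfl⟩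
    have hdW : d * W ≤ Q * s := by
      have e1 : (W : ℝ) = Q * r := by
        rw [hW, hQ]; push_cast; ring
      rw [e1]
      exact hdQ
    -- the time
    obtain ⟨m, hm⟩ : ∃ m : ℕ, m = ⌊(t0 : ℝ) * n⌋₊ := ⟨_, rfl⟩
    have hm1 : (m : ℝ) ≤ t0 * n := by
      rw [hm]; exact Nat.floor_le (by positivity)
    have ht0n : 2 ≤ (t0 : ℝ) * n := by
      rw [div_le_iff₀ h0] at hn2
      linarith
    have hm2 : (t0 : ℝ) / 2 * n ≤ m := by
      have := Nat.lt_floor_add_one ((t0 : ℝ) * n)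
      rw [← hm] at this
      linarith
    have hmn : m ≤ n := by
      have h1 : (t0 : ℝ) * n ≤ 1 * n := mul_le_mul_of_nonneg_right h01 hn0'.le
      have : (m : ℝ) ≤ n := by linarith
      exact_mod_cast this
    have hm0 : 1 ≤ m := by
      have : (0 : ℝ) < m := by linarith
      exact_mod_cast this
    -- the events
    have hB1 : perc.real {ω | ∀ j < J, ¬ Gd4 c0 E0 t L (M * (64 ^ j * r)) (cut ω ρ)} ≤ δ' / 3 := by
      have hsub : ∀ j < J, SA (L * (M * (64 ^ j * r)) : ℕ) ⊆ (bx ρ).edges := by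
        intro j hj
        have h1 := hscaleN j hj
        have h2 : ((L * (M * (64 ^ j * r)) : ℕ) : ℤ) ≤ W := by exact_mod_cast h1
        have h3 : (0 : ℤ) ≤ ((L * (M * (64 ^ j * r)) : ℕ) : ℤ) := Int.natCast_nonneg _
        show SA (L * (M * (64 ^ j * r)) : ℕ) ⊆ RE (-ρ) ρ 0 ρ
        exact SA_sub (by omega) (by omega) (by omega)
      have hI := hind p c0 E0 t L M r hp1 hL hM hr3 hg J (bx ρ).edges hsub
      rw [hcut ρ (fun F => ∀ j < J, ¬ Gd4 c0 E0 t L (M * (64 ^ j * r)) F)]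
      exact hI.trans hJ.le
    have hB2 : perc.real {ω | ¬ ∀ u ∈ Ret_S ω (R1 : ℤ), H984H.sd u (0, 0) < (R2 : ℤ)} ≤ δ' / 3 := by
      refine (hret R1 R2 (by omega) hR12.le).trans ?_
      have h1 : (R1 : ℝ) / R2 = 1 / K1 := by
        rw [hR2]
        push_cast
        have : (0 : ℝ) < R1 := by
          have : 0 < R1 := by omega
          exact_mod_cast this
        field_simp
      rw [h1]
      exact hK1u
    have hB3 : perc.real {ω | reach m ω ≤ x * (m : ℝ) ^ (4/7 : ℝ)} ≤ δ' / 3 :=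
      (hAt m x hm0 hx).trans hxA
    refine le_trans (measureReal_mono (s₂ := ({ω | ∀ j < J, ¬ Gd4 c0 E0 t L (M * (64 ^ j * r)) (cut ω ρ)} ∪
      {ω | ¬ ∀ u ∈ Ret_S ω (R1 : ℤ), H984H.sd u (0, 0) < (R2 : ℤ)}) ∪
      {ω | reach m ω ≤ x * (m : ℝ) ^ (4/7 : ℝ)}) ?_ (measure_ne_top _ _)) ?_
    swap
    · have e1 := measureReal_union_le (μ := perc)
        ({ω | ∀ j < J, ¬ Gd4 c0 E0 t L (M * (64 ^ j * r)) (cut ω ρ)} ∪
        {ω | ¬ ∀ u ∈ Ret_S ω (R1 : ℤ), H984H.sd u (0, 0) < (R2 : ℤ)})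
        {ω | reach m ω ≤ x * (m : ℝ) ^ (4/7 : ℝ)}
      have e2 := measureReal_union_le (μ := perc)
        {ω | ∀ j < J, ¬ Gd4 c0 E0 t L (M * (64 ^ j * r)) (cut ω ρ)}
        {ω | ¬ ∀ u ∈ Ret_S ω (R1 : ℤ), H984H.sd u (0, 0) < (R2 : ℤ)}
      linarith
    intro ω hbad
    by_contra hcon
    simp only [Set.mem_union, Set.mem_ofPred_eq, not_or, not_forall, not_not] at hcon
    obtain ⟨⟨⟨j, hj, hG⟩, hS⟩, hrch⟩ := hcon
    push Not at hrch
    apply hbad
    obtain ⟨a, ha⟩ : ∃ a : ℕ, a = M * (64 ^ j * r) := ⟨_, rfl⟩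
    have haW : L * a ≤ W := by rw [ha]; exact hscaleN j hj
    rw [← ha] at hG
    have haa : 64 ≤ a := by
      have h4 : 1 ≤ 64 ^ j * r := Nat.mul_pos (by positivity) (by omega)
      rw [ha]
      exact le_trans (by omega) (Nat.le_mul_of_pos_right M h4)
    have hδU : d * ((L * a : ℕ) : ℝ) ≤ Q * s := by
      have h4 := mul_le_mul_of_nonneg_left (hscale j hj) hδi.le
      rw [ha]
      linarith
    have hδU2 : (L * M) * (s / 2) ≤ d * ((L * a : ℕ) : ℝ) := by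
      have h4 := mul_le_mul_of_nonneg_left (hscale2 j) hδi.le
      have h5 : (L * M : ℝ) * (s / 2) ≤ L * M * (d * r) :=
        mul_le_mul_of_nonneg_left hr2 (by positivity)
      rw [ha]
      linarith
    have hMs : (M : ℝ) * (s / 2) ≤ d * a := by
      rw [ha]
      push_cast
      have h4 : (1 : ℝ) ≤ 64 ^ j := one_le_pow₀ (by norm_num)
      calc (M:ℝ) * (s / 2) ≤ M * (d * r) := mul_le_mul_of_nonneg_left hr2 (by positivity)
        _ = d * (M * r) * 1 := by ring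
        _ ≤ d * (M * r) * 64 ^ j := mul_le_mul_of_nonneg_left h4 (by positivity)
        _ = d * (M * (64 ^ j * r)) := by ring
    have haWz : ((L * a : ℕ) : ℤ) ≤ W := by exact_mod_cast haW
    refine good_of_Gd hn0 haa hG hc0 hE0 ht ?_ (by linarith) (by positivity) hMs
    intro v hv
    obtain ⟨hv, hE⟩ := mem_V4 hv
    obtain ⟨i1, j1, l1, g1, g2, g3, g4, g5, g6⟩ := detd hdet (R := R2) (r := R1) hL haa
      (by omega) (by exact_mod_cast hR12) (by omega) (by omega) (by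
        intro u hu
        by_contra hcon2
        exact hS ⟨u, hu, hcon2⟩) hG.1.1 hG.1.2 hv hE
    have hkm : l1 ≤ m := by
      by_contra hkm
      push Not at hkm
      have h1 := reach_small (ω := ω) (m := m) (R := R2) (fun j hj => g6 j (by omega))
      have h2 : x * (m : ℝ) ^ (4/7 : ℝ) < 2 * R2 + 1 := by
        refine lt_of_lt_of_le hrch ?_
        exact_mod_cast h1
      have h3 : ((t0 : ℝ) / 2 * n) ^ (4/7 : ℝ) ≤ (m : ℝ) ^ (4/7 : ℝ) :=
        Real.rpow_le_rpow (by positivity) hm2 (by norm_num)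
      rw [Real.mul_rpow (by positivity) hn0'.le] at h3
      have h4 : d * (n : ℝ) ^ (4/7 : ℝ) = 1 := by
        rw [hd]
        unfold LIM.dl
        rw [← Real.rpow_add hn0']
        norm_num
      have h5 : Y ≤ d * (x * (m : ℝ) ^ (4/7 : ℝ)) := by
        calc Y = d * (n : ℝ) ^ (4/7 : ℝ) * Y := by rw [h4, one_mul]
          _ = d * (x * (((t0 : ℝ) / 2) ^ (4/7 : ℝ) * (n : ℝ) ^ (4/7 : ℝ))) := by rw [hY]; ring
          _ ≤ _ := by
            refine mul_le_mul_of_nonneg_left (mul_le_mul_of_nonneg_left h3 hx.le) hδi.le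
      have h6 : d * (x * (m : ℝ) ^ (4/7 : ℝ)) < d * (2 * R2 + 1) :=
        mul_lt_mul_of_pos_left h2 hδi
      have h7 : (R2 : ℝ) = K1 * (30 * W) := by
        rw [hR2, hR1]; push_cast; ring
      have h8 : d * (2 * (R2 : ℝ) + 1) = 60 * (K1 * (d * W)) + d := by
        rw [h7]; ring
      have h9 : (K1 : ℝ) * (d * W) ≤ K1 * (Q * s) := mul_le_mul_of_nonneg_left hdW (by positivity)
      have h10 : 0 ≤ (K1 : ℝ) * (Q * s) := by positivity
      linarith
    refine mem_DD hn0 h0 g1 g2 (hkm.trans hmn) ?_ g3 g4 (u := 15 * ((L * a : ℕ) : ℝ)) ?_ ?_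
      (by linarith) ?_
    · have : (l1 : ℝ) ≤ m := by exact_mod_cast hkm
      linarith
    · have h7 : ((15 * ((L * a : ℕ) : ℤ) : ℤ) : ℝ) ≤ ((H984N.sd (path ω j1).1 v : ℤ) : ℝ) := by
        exact_mod_cast g5
      push_cast at h7 ⊢
      exact h7
    · unfold core4 at hv
      rw [Finset.mem_product, Finset.mem_Icc, Finset.mem_Icc] at hv
      obtain ⟨⟨v1, v2⟩, v3, v4⟩ := hv
      obtain ⟨U, hU⟩ : ∃ U : ℕ, U = L * a := ⟨_, rfl⟩
      rw [← hU] at v1 v2 v3 v4 hδU hδU2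
      have hU0 : (0:ℝ) ≤ U := Nat.cast_nonneg U
      have v1' : -(10 * (U : ℝ)) ≤ v.1 := by exact_mod_cast v1
      have v2' : (v.1 : ℝ) ≤ -(8 * (U : ℝ)) := by exact_mod_cast v2
      have v3' : 17 * (U : ℝ) ≤ v.2 := by exact_mod_cast v3
      have v4' : (v.2 : ℝ) ≤ 19 * (U : ℝ) := by exact_mod_cast v4
      have w1 := mul_le_mul_of_nonneg_left v1' hδi.le
      have w2 := mul_le_mul_of_nonneg_left v2' hδi.le
      have w3 := mul_le_mul_of_nonneg_left v3' hδi.le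
      have w4 := mul_le_mul_of_nonneg_left v4' hδi.le
      have w0 : 0 ≤ d * (U : ℝ) := by positivity
      rw [hBdef, Complex.mem_reProdIm, Set.mem_Icc, Set.mem_Icc]
      have er : (zp d v).re = d * v.1 := rfl
      have ei : (zp d v).im = d * v.2 + d := by
        show d * ((v.2 : ℝ) + 1) = d * v.2 + d
        ring
      rw [er, ei]
      refine ⟨⟨by linarith, by linarith⟩, by linarith, by linarith⟩
    · linarith

end Pool.Agent.Y989.HP.LIMD
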