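import Pool.Agent.Y989.HP.All
import Pool.Agent.Y989.HP.LimD
import Pool.Agent.W347.DPAA
import Pool.Agent.W598.DPplow
import Pool.Agent.W52.DPOne
import Pool.Agent.W52.DPTwo
import Pool.Agent.W347.DPGood
import Pool.Agent.W571.DParms
import Pool.Agent.W801.DPdet

/-!
# Double points of the past in the half-plane: all the steps
-/

set_option autoImplicit false

namespace Pool.Agent.Y989.HP

open MeasureTheory Filter Topology Pool.Agent.W92.DP
open H984H (lawH)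
open scoped ENNReal

theorem a_good : St_good :=
  Pool.Agent.W347.DPGood.good (Pool.Agent.W52.DPOne.one Pool.Agent.W598.DP.plow)
    (Pool.Agent.W52.DPTwo.two Pool.Agent.W347.DPAA.aa)

theorem a_det : St_det := Pool.Agent.W801.DPdet.det Pool.Agent.W571.DParms.arms

/-- The double points of the curve up to time `t` in the half-disc of radius `r`. -/
def DblT (t : unitInterval) (r : ℝ) (f : C(unitInterval, ℂ)) : Set ℂ :=
  {z | 0 < z.im ∧ ‖z‖ < r ∧ ∃ s u : unitInterval, s < u ∧ u ≤ t ∧ f s = z ∧ f u = z}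

theorem DblT_mono {t t' : unitInterval} (ht : t ≤ t') {r r' : ℝ} (hr : r ≤ r')
    (f : C(unitInterval, ℂ)) : DblT t r f ⊆ DblT t' r' f := by
  rintro z ⟨h1, h2, s, u, h3, h4, h5⟩
  exact ⟨h1, h2.trans_le hr, s, u, h3, h4.trans ht, h5⟩

theorem comp_sub {t : unitInterval} (h0 : 0 < (t : ℝ)) {r : ℝ} (f : C(unitInterval, ℂ)) :
    LIMD.Dbl r (f.comp (GEOT.mT t)) ⊆ DblT t r f := by
  rintro z ⟨h1, h2, s, u, h3, h4, h5⟩
  refine ⟨h1, h2, t * s, t * u, ?_, ?_, h4, h5⟩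
  · show ((t * s : unitInterval) : ℝ) < ((t * u : unitInterval) : ℝ)
    rw [Set.Icc.coe_mul, Set.Icc.coe_mul]
    exact mul_lt_mul_of_pos_left h3 h0
  · show ((t * u : unitInterval) : ℝ) ≤ t
    rw [Set.Icc.coe_mul]
    exact mul_le_of_le_one_right t.2.1 u.2.2

/-- The dimension of the double points up to any time is at least `3 / 4`. -/
theorem lowerD {φ : ℕ → ℕ} (hφ : Tendsto φ atTop atTop)
    {μ : ProbabilityMeasure C(unitInterval, ℂ)} (hμ : Tendsto (fun i => lawH (φ i)) atTop (𝓝 μ)) :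
    ∀ᵐ f : C(unitInterval, ℂ) ∂(μ : Measure C(unitInterval, ℂ)), ∀ t : unitInterval, 0 < t →
      ∀ r : ℝ, 0 < r → 3 / 4 ≤ dimH (DblT t r f) := by
  have hq1 : ∀ q : ℕ, (1 : ℝ) / ((q : ℝ) + 1) ≤ 1 := by
    intro q
    have hq : (0 : ℝ) ≤ q := Nat.cast_nonneg q
    rw [div_le_one (by positivity)]; linarith
  have hlow : ∀ᵐ f : C(unitInterval, ℂ) ∂(μ : Measure C(unitInterval, ℂ)), ∀ n m q : ℕ,
      ENNReal.ofReal (3 / 4 - (1 / 2) / ((n : ℝ) + 1)) ≤
        dimH (DblT ⟨1 / ((q : ℝ) + 1), by positivity, hq1 q⟩ (1 / ((m : ℝ) + 1)) f) := by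
    rw [ae_all_iff]
    intro n
    rw [ae_all_iff]
    intro m
    rw [ae_all_iff]
    intro q
    have hn : (1/2 : ℝ) / ((n : ℝ) + 1) ≤ 1/2 := by
      rw [div_le_iff₀ (by positivity)]
      have : (0:ℝ) ≤ n := Nat.cast_nonneg n
      linarith
    have hn2 : (0 : ℝ) < (1/2 : ℝ) / ((n : ℝ) + 1) := by positivity
    have h0 : (0 : ℝ) < ((⟨1 / ((q : ℝ) + 1), by positivity, hq1 q⟩ : unitInterval) : ℝ) := by
      show (0 : ℝ) < 1 / ((q : ℝ) + 1)
      positivity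
    filter_upwards [LIMD.t_LIMD a_good Pool.Agent.W52.DPInd.ind a_det RETCUT.t_RETP RETCUT.t_CUTP
      a_TAIL hφ hμ (t := 3 / 4 - (1 / 2) / ((n : ℝ) + 1)) (by linarith) (by linarith)
      (t0 := ⟨1 / ((q : ℝ) + 1), by positivity, hq1 q⟩) h0 (ρ0 := 1 / ((m : ℝ) + 1))
      (by positivity)] with f hf
    exact hf.trans (dimH_mono (comp_sub h0 f))
  filter_upwards [hlow] with f hf t ht r hr
  have ht' : (0 : ℝ) < t := ht
  obtain ⟨q, hq⟩ := exists_nat_one_div_lt ht'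
  obtain ⟨m, hm⟩ := exists_nat_one_div_lt hr
  have hlim : Tendsto (fun n : ℕ => ENNReal.ofReal (3/4 - (1/2) / ((n : ℝ) + 1))) atTop
      (𝓝 (ENNReal.ofReal (3/4))) := by
    apply ENNReal.tendsto_ofReal
    have h2 : Tendsto (fun n : ℕ => (1/2 : ℝ) / ((n : ℝ) + 1)) atTop (𝓝 0) := by
      have := (tendsto_one_div_add_atTop_nhds_zero_nat (𝕜 := ℝ)).const_mul (1/2)
      rw [mul_zero] at this
      refine this.congr fun n => ?_
      ring
    have := h2.const_sub (3/4 : ℝ)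
    rwa [sub_zero] at this
  have h3 : ENNReal.ofReal (3 / 4) = 3 / 4 := by
    rw [ENNReal.ofReal_div_of_pos (by norm_num)]; norm_num
  rw [← h3]
  refine (le_of_tendsto' hlim fun n => hf n m q).trans (dimH_mono (DblT_mono ?_ hm.le f))
  exact Subtype.coe_le_coe.1 hq.le

end Pool.Agent.Y989.HP
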