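import Pool.Agent.Y989.HP.Stm
import Pool.Agent.Y989.FR.T_LIM3
import Pool.Agent.H984R4.HN.NoZero

/-!
# Sides of the past in the half-plane: the limit
-/

set_option autoImplicit false

namespace Pool.Agent.Y989.HP.LIM

open H974 H12S Finset H984P MeasureTheory Filter Topology
open Pool.Agent.Y989.FR (GO3 GD3 E3 core3 AE Fro V3 Gd3 S_GOOD3 S_IND3 S_CHN S_LG)
open Pool.Agent.Y989.FR.LIM3 (AA isClosed_good zp_le zp_adj mem_AE_sd sd_bdB mem_V3 good_of_Gd)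
open Pool.Agent.H389R2.Dim (Good)
open Pool.Agent.TH966.DP (zp zp_dist zp_inj pl_node nt nt_mul SA_sub)
open Pool.Agent.W92.DP (SA)
open H984H (Conf perc path opn cut bx gam Ret_S lawH curve reach place lawH_apply)
open scoped ENNReal NNReal

/-! ### Distances -/

/-- The mesh. -/
noncomputable def dl (n : ℕ) : ℝ := (n : ℝ) ^ (-(4/7) : ℝ)

theorem dl_pos {n : ℕ} (hn : 0 < n) : 0 < dl n :=
  Real.rpow_pos_of_pos (by exact_mod_cast hn) _

theorem place_zp {δ : ℝ} (hδ : 0 ≤ δ) (σ : St) : dist ((δ : ℂ) * place σ) (zp δ σ.1) ≤ 2 * δ := by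
  obtain ⟨v, q⟩ := σ
  have h : dist ((δ : ℂ) * place (v, q)) (zp δ v) ≤ 1 / 4 * δ + 5 / 4 * δ := by
    apply H984N.ML.dist_le_of
    · cases q <;> simp only [place, zp, Complex.re_ofReal_mul] <;> rw [abs_le] <;>
        constructor <;> nlinarith
    · cases q <;> simp only [place, zp, Complex.im_ofReal_mul] <;> rw [abs_le] <;>
        constructor <;> nlinarith
  linarith

theorem curve_near {n : ℕ} (hn : 0 < n) (ω : Conf) (s : unitInterval) :
    ∃ k, dist (curve n ω s) (zp (dl n) (path ω k).1) ≤ 3 * dl n := by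
  obtain ⟨k, hk, h1, h2⟩ := H984N.pl_exists_seg hn s
  refine ⟨k, ?_⟩
  have h3 := H984H.curve_node ω hk h1 h2
  have h4 := place_zp (dl_pos hn).le (path ω k)
  have h5 := dl_pos hn
  have h6 := dist_triangle (curve n ω s) (((dl n : ℝ) : ℂ) * gam ω k) (zp (dl n) (path ω k).1)
  have h7 : dist (curve n ω s) (((dl n : ℝ) : ℂ) * gam ω k) ≤ dl n * (1 / 2) := by
    rw [dist_eq_norm]; exact h3
  have h8 : dist (((dl n : ℝ) : ℂ) * gam ω k) (zp (dl n) (path ω k).1) ≤ 2 * dl n := h4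
  linarith

theorem curve_vis {n : ℕ} (hn : 0 < n) (ω : Conf) {k : ℕ} (hk : k ≤ n) :
    dist (curve n ω (nt n k hk)) (zp (dl n) (path ω k).1) ≤ 2 * dl n := by
  have h : curve n ω (nt n k hk) = ((dl n : ℝ) : ℂ) * gam ω k :=
    pl_node (fun k => (((n : ℝ) ^ (-(4/7) : ℝ) : ℝ) : ℂ) * gam ω k) hn hk (nt_mul hn hk)
  rw [h]
  exact place_zp (dl_pos hn).le (path ω k)

/-- The points of the thick path. -/
def SP (δ : ℝ) (ω : Conf) (M B k : ℕ) (v : Vtx) : Set ℂ :=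
  {z | ∃ x, H984N.sd x v ≤ k ∧ AwP ω M B k v x ∧ z = zp δ x}

theorem chain {δ e : ℝ} (hδ : 0 ≤ δ) (he : δ ≤ e) {ω : Conf} {M B k : ℕ}
    {v x y : Vtx} (h : Reach {e | e ∈ AE v 2 k ∧ AwP ω M B k v (src e) ∧
        AwP ω M B k v (tgt e)} x y) :
    Relation.ReflTransGen (fun a b => b ∈ SP δ ω M B k v ∧ dist a b ≤ e) (zp δ x) (zp δ y) := by
  induction h with
  | refl => exact Relation.ReflTransGen.refl
  | tail _ hs ih =>
    obtain ⟨g, ⟨h1, h2, h3⟩, h4⟩ := hs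
    have h5 := mem_AE_sd h1
    rcases h4 with ⟨h6, h7⟩ | ⟨h6, h7⟩
    · refine ih.tail ⟨⟨tgt g, h5.2, h3, by rw [h7]⟩, ?_⟩
      rw [← h6, ← h7]
      exact (zp_adj hδ g).trans he
    · refine ih.tail ⟨⟨src g, h5.1, h2, by rw [h6]⟩, ?_⟩
      rw [← h6, ← h7, dist_comm]
      exact (zp_adj hδ g).trans he

theorem start_mem {δ : ℝ} {ω : Conf} {M B k : ℕ} {v x y : Vtx}
    (h : Reach {e | e ∈ AE v 2 k ∧ AwP ω M B k v (src e) ∧
        AwP ω M B k v (tgt e)} x y) (hxy : x ≠ y) :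
    zp δ x ∈ SP δ ω M B k v := by
  rcases Relation.ReflTransGen.cases_head h with h | ⟨c, ⟨g, ⟨h1, h2, h3⟩, h4⟩, -⟩
  · exact absurd h hxy
  · have h5 := mem_AE_sd h1
    rcases h4 with ⟨h6, h7⟩ | ⟨h6, h7⟩
    · exact ⟨src g, h5.1, h2, by rw [h6]⟩
    · exact ⟨tgt g, h5.2, h3, by rw [h7]⟩

theorem away {n : ℕ} (hn : 0 < n) {ω : Conf} {M B k : ℕ} (hB : 1 ≤ B)
    {v x : Vtx} (hx : AwP ω M B k v x) {M' : ℝ} (hM' : 0 ≤ M')
    (h : 2 ^ B * M * (dl n * (8 * k)) ^ (B - 1) ≤ M') (s : unitInterval) :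
    dist (zp (dl n) x) (zp (dl n) v) ^ B ≤ M' * dist (zp (dl n) x) (curve n ω s) +
      M' * (3 * dl n) := by
  obtain ⟨i, hd⟩ := curve_near hn ω s
  have hδ := dl_pos hn
  set δ : ℝ := dl n with hδdef
  have h1 := hx i
  have h1' : (((H984N.sd x v : ℤ) : ℝ)) ^ B ≤ (M : ℝ) * ((8 * k : ℕ) : ℝ) ^ (B - 1) *
      ((H984N.sd x (path ω i).1 : ℤ) : ℝ) := by exact_mod_cast h1
  have h0 : (0:ℝ) ≤ ((H984N.sd x v : ℤ) : ℝ) := by
    have : 0 ≤ H984N.sd x v := le_trans (abs_nonneg _) (le_max_left _ _)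
    exact_mod_cast this
  have h2 : dist (zp δ x) (zp δ v) ^ B ≤ (2 * (δ * ((H984N.sd x v : ℤ) : ℝ))) ^ B :=
    pow_le_pow_left₀ dist_nonneg (zp_le hδ.le _ _) B
  have h3 : δ * ((H984N.sd x (path ω i).1 : ℤ) : ℝ) ≤
      dist (zp δ x) (curve n ω s) + 3 * δ := by
    have e1 := zp_dist hδ.le x (path ω i).1
    have e3 := dist_triangle (zp δ x) (curve n ω s) (zp δ (path ω i).1)
    linarith
  obtain ⟨b, rfl⟩ : ∃ b, B = b + 1 := ⟨B - 1, by omega⟩
  simp only [Nat.add_sub_cancel] at h h1'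
  have h4 : (2 * (δ * ((H984N.sd x v : ℤ) : ℝ))) ^ (b + 1) =
      2 ^ (b + 1) * δ ^ (b + 1) * ((H984N.sd x v : ℤ) : ℝ) ^ (b + 1) := by
    rw [mul_pow, mul_pow]; ring
  have h5 : 2 ^ (b + 1) * δ ^ (b + 1) * ((H984N.sd x v : ℤ) : ℝ) ^ (b + 1) ≤
      2 ^ (b + 1) * δ ^ (b + 1) * ((M : ℝ) * ((8 * k : ℕ) : ℝ) ^ b *
      ((H984N.sd x (path ω i).1 : ℤ) : ℝ)) := by
    refine mul_le_mul_of_nonneg_left h1' (by positivity)
  have h6 : 2 ^ (b + 1) * δ ^ (b + 1) * ((M : ℝ) * ((8 * k : ℕ) : ℝ) ^ b *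
      ((H984N.sd x (path ω i).1 : ℤ) : ℝ)) = (2 ^ (b + 1) * M * (δ * (8 * k)) ^ b) *
        (δ * ((H984N.sd x (path ω i).1 : ℤ) : ℝ)) := by
    rw [mul_pow δ]; push_cast; ring
  have h7 : 0 ≤ δ * ((H984N.sd x (path ω i).1 : ℤ) : ℝ) := by
    have : 0 ≤ H984N.sd x (path ω i).1 := le_trans (abs_nonneg _) (le_max_left _ _)
    have : (0:ℝ) ≤ ((H984N.sd x (path ω i).1 : ℤ) : ℝ) := by exact_mod_cast this
    positivity
  calc dist (zp δ x) (zp δ v) ^ (b + 1) ≤ _ := h2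
    _ = _ := h4
    _ ≤ _ := h5
    _ = _ := h6
    _ ≤ M' * (δ * ((H984N.sd x (path ω i).1 : ℤ) : ℝ)) := mul_le_mul_of_nonneg_right h h7
    _ ≤ M' * (dist (zp δ x) (curve n ω s) + 3 * δ) := mul_le_mul_of_nonneg_left h3 hM'
    _ = _ := by ring

/-- Vertices with a thick path give points of the approximate set. -/
theorem mem_Qct {n : ℕ} (hn : 0 < n) {e : ℝ} {ω : Conf} {M B k : ℕ} (hB : 1 ≤ B)
    (hk : 3 ≤ k) {v : Vtx} {t0 : ℝ} (hvis : ∃ i ≤ n, (i : ℝ) ≤ t0 * n ∧ (path ω i).1 = v)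
    (hth : ∃ x ∈ bdB v 2, ∃ y ∈ bdB v k,
      Reach {e | e ∈ AE v 2 k ∧ AwP ω M B k v (src e) ∧
        AwP ω M B k v (tgt e)} x y) {M' κ R0 : ℝ} (hM' : 0 ≤ M')
    (h : 2 ^ B * M * (dl n * (8 * k)) ^ (B - 1) ≤ M') (he : 4 * dl n ≤ e)
    (he' : M' * (3 * dl n) ≤ e)
    (hκ : κ ≤ dl n * k) (hR : ‖zp (dl n) v‖ + 2 * (dl n * k) ≤ R0) {N : ℕ}
    (hN : ∀ (S : Set ℂ) (a b : ℂ), (∀ x ∈ S, ‖x‖ ≤ R0) →
      a ∈ S → Relation.ReflTransGen (fun x y => y ∈ S ∧ dist x y ≤ e) a b →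
      ∃ x : Fin (N + 1) → ℂ, (∀ i, x i ∈ S) ∧ x 0 = a ∧ x (Fin.last N) = b ∧
      ∀ i : Fin N, dist (x i.castSucc) (x i.succ) ≤ e) :
    (curve n ω, zp (dl n) v) ∈ Qct t0 M' κ R0 e B N := by
  have hδ := dl_pos hn
  obtain ⟨x, hx, y, hy, hr⟩ := hth
  have hx' := sd_bdB hx
  have hy' := sd_bdB hy
  have hxy : x ≠ y := by
    rintro rfl
    rw [hx'] at hy'
    have : (2:ℕ) = k := by exact_mod_cast hy'
    omega
  have hbd : ∀ z ∈ SP (dl n) ω M B k v, ‖z‖ ≤ R0 := by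
    rintro z ⟨u, hu, -, rfl⟩
    have h1 := zp_le hδ.le u v
    have h2 : dl n * ((H984N.sd u v : ℤ) : ℝ) ≤ dl n * k :=
      mul_le_mul_of_nonneg_left (by exact_mod_cast hu) hδ.le
    have h3 : ‖zp (dl n) u‖ ≤ ‖zp (dl n) v‖ + dist (zp (dl n) u) (zp (dl n) v) := by
      rw [dist_eq_norm]
      have := norm_add_le (zp (dl n) v) (zp (dl n) u - zp (dl n) v)
      rwa [add_sub_cancel] at this
    linarith
  obtain ⟨X, h1, h2, h3, h4⟩ := hN (SP (dl n) ω M B k v) (zp (dl n) x) (zp (dl n) y) hbd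
    (start_mem hr hxy) (chain hδ.le (by linarith) hr)
  refine ⟨?_, ?_, X, fun i => hbd _ (h1 i), ?_, ?_, h4, ?_⟩
  · have : 0 ≤ 2 * (dl n * k) := by positivity
    show ‖zp (dl n) v‖ ≤ R0
    linarith
  · obtain ⟨i, hi, hi0, hv⟩ := hvis
    refine ⟨nt n i hi, ?_, ?_⟩
    · have h5 : ((nt n i hi : unitInterval) : ℝ) * n = i := nt_mul hn hi
      have hn' : (0 : ℝ) < n := by exact_mod_cast hn
      rw [← h5] at hi0
      exact le_of_mul_le_mul_right hi0 hn'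
    · show dist (curve n ω (nt n i hi)) (zp (dl n) v) ≤ e
      rw [← hv]
      refine (curve_vis hn ω hi).trans ?_
      linarith
  · show dist (X 0) (zp (dl n) v) ≤ e
    rw [h2]
    have := zp_le hδ.le x v
    rw [hx'] at this
    push_cast at this
    linarith
  · show κ ≤ dist (X (Fin.last N)) (zp (dl n) v) + e
    rw [h3]
    have := zp_dist hδ.le y v
    rw [hy'] at this
    push_cast at this
    linarith
  · intro i s
    show dist (X i) (zp (dl n) v) ^ B ≤ M' * dist (X i) (curve n ω s) + e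
    obtain ⟨u, -, hu, hz⟩ := h1 i
    rw [hz]
    have := away hn hB hu hM' h s
    linarith


theorem gam_le (ω : Conf) (k : ℕ) :
    ‖gam ω k‖ ≤ 2 * ((H984H.sd (path ω k).1 (0, 0) : ℤ) : ℝ) + 1 := H984H.norm_place_le _

/-- The path is short as long as it stays in the box. -/
theorem reach_small {ω : Conf} {m : ℕ} {R : ℤ} (h : ∀ j ≤ m, H984H.sd (path ω j).1 (0, 0) < R) :
    reach m ω ≤ 2 * R + 1 := by
  unfold reach
  apply Finset.sup'_le
  intro k hk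
  have h1 := h k (by have := Finset.mem_range.mp hk; omega)
  have h2 := gam_le ω k
  have h3 : ((H984H.sd (path ω k).1 (0, 0) : ℤ) : ℝ) ≤ R := by exact_mod_cast h1.le
  linarith

/-- The points visited before `t0` which stay on the sides of the past. -/
def Per (t0 ρ0 : ℝ) (f : C(unitInterval, ℂ)) : Set ℂ :=
  {z | 0 < z.im ∧ ‖z‖ < ρ0 ∧ ∀ t' : unitInterval, t0 ≤ t' →
    z ∈ f '' Set.Icc 0 t' ∧ z ∈ Fro (f '' Set.Icc 0 t')}

/-- LG without the second coordinate. -/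
theorem lgc (hlg : S_LG) (μs : ℕ → ProbabilityMeasure C(unitInterval, ℂ))
    (μ : ProbabilityMeasure C(unitInterval, ℂ)) (hμ : Tendsto μs atTop (𝓝 μ)) (t : ℝ) (ht : 0 < t)
    (T : C(unitInterval, ℂ) → Set ℂ)
    (h : ∀ ε : ℝ≥0∞, 0 < ε → ∃ (c : ℝ) (K : Set ℂ) (Q : ℕ → Set (C(unitInterval, ℂ) × ℂ)), 0 < c ∧
    IsCompact K ∧ (∀ k, IsClosed (Q k)) ∧ (∀ f, ∀ z ∈ K, (∀ k, (f, z) ∈ Q k) → z ∈ T f) ∧
    ∀ ε' : ℝ, 0 < ε' → ∀ᶠ i in atTop,
      (μs i : Measure C(unitInterval, ℂ)) {γ | ¬ Good t ε' c (AA K Q ε' γ)} ≤ ε) :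
    ∀ᵐ f : C(unitInterval, ℂ) ∂(μ : Measure C(unitInterval, ℂ)), ENNReal.ofReal t ≤ dimH (T f) := by
  have hc : Continuous (fun f : C(unitInterval, ℂ) => ((f, (0 : ℝ)) : H984N.X)) := by fun_prop
  have hm : Measurable (fun f : C(unitInterval, ℂ) => ((f, (0 : ℝ)) : H984N.X)) := by
    exact measurable_id.prodMk measurable_const
  have h1 := ProbabilityMeasure.tendsto_map_of_tendsto_of_continuous μs μ hμ hc
  have h2 := hlg _ _ h1 t ht T ?_
  · exact ae_of_ae_map hm.aemeasurable h2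
  · intro ε hε
    obtain ⟨c, K, Q, h3, h4, h5, h6, h7⟩ := h ε hε
    refine ⟨c, K, Q, h3, h4, h5, h6, fun ε' hε' => ?_⟩
    filter_upwards [h7 ε' hε'] with i hi
    have hopen : IsOpen {γ : H984N.X | ¬ Good t ε' c (AA K Q ε' γ.1)} :=
      ((isClosed_good h4 h5).preimage continuous_fst).isOpen_compl
    have e1 : ((μs i).map hc.measurable.aemeasurable : Measure H984N.X)
        {γ : H984N.X | ¬ Good t ε' c (AA K Q ε' γ.1)} =
        (μs i : Measure C(unitInterval, ℂ)) {γ | ¬ Good t ε' c (AA K Q ε' γ)} := by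
      rw [ProbabilityMeasure.toMeasure_map, Measure.map_apply hm hopen.measurableSet]
      rfl
    exact (le_of_eq e1).trans hi


/-- The tail of the displacement. -/
def S_TAIL : Prop := ∃ A : ℝ, 0 < A ∧ ∀ (n : ℕ) (x : ℝ), 1 ≤ n → 0 < x →
  perc.real {ω | reach n ω ≤ x * (n : ℝ) ^ (4/7 : ℝ)} ≤ A * x ^ (7/4 : ℝ)

theorem exists_small {C c : ℝ} (hc : 0 < c) {d : ℝ} (hd : 0 < d) :
    ∃ x : ℝ, 0 < x ∧ x ≤ 1 ∧ ∀ y : ℝ, 0 < y → y ≤ x → C * y ^ c ≤ d := by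
  have h1 : Tendsto (fun x : ℝ => C * x ^ c) (𝓝 0) (𝓝 (C * 0 ^ c)) :=
    (Real.continuousAt_rpow_const 0 c (Or.inr hc.le)).tendsto.const_mul C
  rw [Real.zero_rpow hc.ne', mul_zero] at h1
  have h2 := (tendsto_order.1 h1).2 d hd
  obtain ⟨r, hr, h3⟩ := Metric.eventually_nhds_iff.1 h2
  refine ⟨min (r / 2) 1, by positivity, min_le_right _ _, fun y hy hyx => ?_⟩
  have h4 : dist y 0 < r := by
    rw [Real.dist_eq, sub_zero, abs_of_pos hy]
    have := hyx.trans (min_le_left _ _)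
    linarith
  exact (h3 h4).le

theorem t_LIMH (hgood : S_GOOD3) (hind : S_IND3) (hdetv : S_DETV) (hdett : S_DETT)
    (hretp : S_RETP) (hcut : S_CUTP) (hqct : S_QCT) (hgeot : S_GEOT) (hchn : S_CHN) (hlg : S_LG)
    (htail : S_TAIL) {φ : ℕ → ℕ} (hφ : Tendsto φ atTop atTop)
    {μ : ProbabilityMeasure C(unitInterval, ℂ)} (hμ : Tendsto (fun i => lawH (φ i)) atTop (𝓝 μ))
    {t : ℝ} (ht : 0 < t) (ht1 : t < 4 / 3) {t0 : ℝ} (h0 : 0 < t0) (h01 : t0 ≤ 1) {ρ0 : ℝ}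
    (hρ0 : 0 < ρ0) :
    ∀ᵐ f : C(unitInterval, ℂ) ∂(μ : Measure C(unitInterval, ℂ)),
      ENNReal.ofReal t ≤ dimH (Per t0 ρ0 f) := by
  refine lgc hlg (fun i => lawH (φ i)) μ hμ t ht (Per t0 ρ0) ?_
  intro ε hε
  obtain ⟨δ', hδ', hδε⟩ : ∃ δ : ℝ, 0 < δ ∧ ENNReal.ofReal δ ≤ ε := by
    rcases eq_or_ne ε ∞ with h | h
    · exact ⟨1, one_pos, by rw [h]; exact le_top⟩
    · exact ⟨ε.toReal, ENNReal.toReal_pos hε.ne' h, by rw [ENNReal.ofReal_toReal h]⟩
  obtain ⟨M, B, a0, c0, E0, p, hM, hB, ha0, hc0, hE0, hp, hp1, hg⟩ := hgood t ht ht1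
  obtain ⟨J, hJ⟩ := exists_pow_lt_of_lt_one (show 0 < δ' / 3 by positivity)
    (show 1 - p < 1 by linarith)
  obtain ⟨C, c, hC, hc, hret⟩ := hretp
  obtain ⟨u1, hu1, hu1', hu1''⟩ := exists_small (C := C) hc (show 0 < δ' / 3 by positivity)
  obtain ⟨K1, hK1⟩ : ∃ K1 : ℕ, K1 = max 2 ⌈1 / u1⌉₊ := ⟨_, rfl⟩
  have hK12 : 2 ≤ K1 := by rw [hK1]; exact le_max_left _ _
  have hK1u : C * ((1 : ℝ) / K1) ^ c ≤ δ' / 3 := by
    have hK0 : (0 : ℝ) < K1 := by
      have : 0 < K1 := by omega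
      exact_mod_cast this
    apply hu1'' _ (by positivity)
    rw [div_le_iff₀ hK0]
    have h2 : 1 / u1 ≤ K1 := by
      refine (Nat.le_ceil _).trans ?_
      rw [hK1]
      exact_mod_cast le_max_right _ _
    rwa [div_le_iff₀ hu1, mul_comm] at h2
  obtain ⟨A, hA, hAt⟩ := htail
  obtain ⟨x, hx, hx', hx''⟩ := exists_small (C := A) (show (0 : ℝ) < 7 / 4 by norm_num)
    (show 0 < δ' / 3 by positivity)
  have hxA := hx'' x hx le_rfl
  -- the sizes
  obtain ⟨Q, hQ⟩ : ∃ Q : ℝ, Q = 64 ^ J := ⟨_, rfl⟩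
  have hQ1 : 1 ≤ Q := by
    rw [hQ]; exact one_le_pow₀ (by norm_num)
  have hK1r : (2 : ℝ) ≤ K1 := by exact_mod_cast hK12
  obtain ⟨Y, hY⟩ : ∃ Y : ℝ, Y = x * (t0 / 2) ^ (4/7 : ℝ) := ⟨_, rfl⟩
  have hY0 : 0 < Y := by rw [hY]; positivity
  obtain ⟨s, hs⟩ : ∃ s : ℝ, s = min (Y / (240 * (K1 * Q))) (ρ0 / (320 * Q)) := ⟨_, rfl⟩
  have hs0 : 0 < s := by
    rw [hs]
    apply lt_min <;> positivity
  have hsY : 240 * (K1 * (Q * s)) ≤ Y := by
    have h2 : s ≤ Y / (240 * (K1 * Q)) := by rw [hs]; exact min_le_left _ _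
    rw [le_div_iff₀ (by positivity)] at h2
    linarith
  have hsρ : 320 * (Q * s) ≤ ρ0 := by
    have h2 : s ≤ ρ0 / (320 * Q) := by rw [hs]; exact min_le_right _ _
    rw [le_div_iff₀ (by positivity)] at h2
    linarith
  have hQs0 : 0 < Q * s := by positivity
  have hsQ : s ≤ Q * s := le_mul_of_one_le_left hs0.le hQ1
  set K : Set ℂ := Set.Icc (-(60 * (Q * s))) 0 ×ℂ Set.Icc (10 * s) (24 * (Q * s)) with hKdef
  have hKc : IsCompact K := isCompact_Icc.reProdIm isCompact_Icc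
  obtain ⟨M', hM'⟩ : ∃ M' : ℝ, M' = 2 ^ B * M * (Q * s) ^ (B - 1) := ⟨_, rfl⟩
  have hMr : (0:ℝ) < M := by
    have : 0 < M := by omega
    exact_mod_cast this
  have hM'0 : 0 < M' := by rw [hM']; positivity
  obtain ⟨NN, hNN⟩ := Classical.axiomOfChoice (fun k : ℕ =>
    hchn (100 * (Q * s)) (1 / ((k : ℝ) + 1)) (by positivity))
  refine ⟨2 ^ (-t) / (E0 / c0 ^ 2 * (s / 2) ^ (-t)), K,
    fun k => Qct t0 M' (s / 256) (100 * (Q * s)) (1 / ((k : ℝ) + 1)) B (NN k),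
    by positivity, hKc, fun k => hqct _ _ _ _ _ _ _, ?_, ?_⟩
  · intro f z hzK hz
    rw [hKdef, Complex.mem_reProdIm, Set.mem_Icc, Set.mem_Icc] at hzK
    obtain ⟨⟨b1, b2⟩, b3, b4⟩ := hzK
    refine ⟨by linarith, ?_, hgeot t0 M' (s / 256) (100 * (Q * s)) B NN f z hM'0 (by positivity)
      hB hz⟩
    have e1 : ‖z‖ ≤ |z.re| + |z.im| := Complex.norm_le_abs_re_add_abs_im _
    have e2 : |z.re| ≤ 60 * (Q * s) := by
      rw [abs_le]; constructor <;> linarith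
    have e3 : |z.im| ≤ 24 * (Q * s) := by
      rw [abs_le]; constructor <;> linarith
    linarith
  · intro ε' hε'
    obtain ⟨δm, hδm⟩ : ∃ δm : ℝ, δm = min (min (Y / 4) (ε' / 4)) (min (s / 2)
      (min (ε' / (3 * M')) (s / ((a0 : ℝ) + 1)))) := ⟨_, rfl⟩
    have hδm0 : 0 < δm := by
      rw [hδm]
      refine lt_min (lt_min (by positivity) (by positivity)) (lt_min (by positivity)
        (lt_min (by positivity) (by positivity)))
    have hsc : Tendsto (fun i => dl (φ i)) atTop (𝓝 0) :=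
      (tendsto_rpow_neg_atTop (by norm_num : (0:ℝ) < 4/7)).comp
        (tendsto_natCast_atTop_atTop.comp hφ)
    have hev : ∀ᶠ i in atTop, dl (φ i) < δm := (tendsto_order.1 hsc).2 _ hδm0
    have hev2 : ∀ᶠ i in atTop, 2 / t0 ≤ ((φ i : ℕ) : ℝ) :=
      (tendsto_natCast_atTop_atTop.comp hφ).eventually_ge_atTop _
    filter_upwards [hev, hev2] with i hi hn2
    obtain ⟨n, hn⟩ : ∃ n, n = φ i := ⟨_, rfl⟩
    rw [← hn] at hi hn2 ⊢
    have hn0' : (0 : ℝ) < n := lt_of_lt_of_le (by positivity) hn2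
    have hn0 : 0 < n := by exact_mod_cast hn0'
    have hi0 : dl n ≤ Y / 4 := hi.le.trans (by
      rw [hδm]; exact (min_le_left _ _).trans (min_le_left _ _))
    have hi1 : dl n ≤ ε' / 4 := hi.le.trans (by
      rw [hδm]; exact (min_le_left _ _).trans (min_le_right _ _))
    have hi2 : dl n ≤ s / 2 := hi.le.trans (by
      rw [hδm]; exact (min_le_right _ _).trans (min_le_left _ _))
    have hi4 : dl n ≤ ε' / (3 * M') := hi.le.trans (by
      rw [hδm]; exact (min_le_right _ _).trans ((min_le_right _ _).trans (min_le_left _ _)))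
    have hi5 : dl n ≤ s / ((a0 : ℝ) + 1) := hi.le.trans (by
      rw [hδm]; exact (min_le_right _ _).trans ((min_le_right _ _).trans (min_le_right _ _)))
    have hδi := dl_pos hn0
    set d : ℝ := dl n with hd
    have hopen : IsOpen {γ : C(unitInterval, ℂ) | ¬ Good t ε' (2 ^ (-t) / (E0 / c0 ^ 2 * (s / 2) ^ (-t)))
        (AA K (fun k => Qct t0 M' (s / 256) (100 * (Q * s)) (1 / ((k : ℝ) + 1)) B (NN k)) ε' γ)} :=
      (isClosed_good hKc fun k => hqct _ _ _ _ _ _ _).isOpen_compl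
    rw [lawH_apply n hopen.measurableSet]
    refine le_trans (ENNReal.ofReal_le_ofReal ?_) hδε
    -- the lattice scale
    obtain ⟨r, hr⟩ : ∃ r : ℕ, r = ⌊s / d⌋₊ := ⟨_, rfl⟩
    have hr1 : d * r ≤ s := by
      have := Nat.floor_le (show 0 ≤ s / d by positivity)
      rw [← hr, le_div_iff₀ hδi] at this
      linarith
    have hr2 : s / 2 ≤ d * r := by
      have := Nat.lt_floor_add_one (s / d)
      rw [← hr, div_lt_iff₀ hδi, show ((r : ℝ) + 1) * d = d * r + d by ring] at this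
      linarith
    have hr3 : a0 ≤ r := by
      rw [hr]
      apply Nat.le_floor
      rw [le_div_iff₀ hδi]
      rw [le_div_iff₀ (by positivity), show d * ((a0 : ℝ) + 1) = a0 * d + d by ring] at hi5
      linarith
    have hscale : ∀ j < J, ((64 ^ j * r : ℕ) : ℝ) ≤ Q * r := by
      intro j hj
      push_cast
      have h1 : (64 : ℝ) ^ j ≤ 64 ^ J := pow_le_pow_right₀ (by norm_num) hj.le
      rw [hQ]
      exact mul_le_mul_of_nonneg_right h1 (Nat.cast_nonneg r)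
    have hscaleN : ∀ j < J, 64 ^ j * r ≤ 64 ^ J * r := by
      intro j hj
      exact Nat.mul_le_mul_right r (Nat.pow_le_pow_right (by norm_num) hj.le)
    have hscale2 : ∀ j : ℕ, (r : ℝ) ≤ ((64 ^ j * r : ℕ) : ℝ) := by
      intro j
      push_cast
      have h1 : (1 : ℝ) ≤ 64 ^ j := one_le_pow₀ (by norm_num)
      exact le_mul_of_one_le_left (Nat.cast_nonneg r) h1
    have hdQ : d * (Q * r) ≤ Q * s := by
      calc d * (Q * r) = Q * (d * r) := by ring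
        _ ≤ Q * s := mul_le_mul_of_nonneg_left hr1 (by linarith)
    -- the boxes
    obtain ⟨W, hW⟩ : ∃ W : ℕ, W = 64 ^ J * r := ⟨_, rfl⟩
    rw [← hW] at hscaleN
    have hrpos : 192 ≤ r := ha0.trans hr3
    have hW1 : 1 ≤ W := by
      rw [hW]
      exact Nat.mul_pos (by positivity) (by omega)
    obtain ⟨R1, hR1⟩ : ∃ R1 : ℕ, R1 = 60 * W := ⟨_, rfl⟩
    obtain ⟨R2, hR2⟩ : ∃ R2 : ℕ, R2 = K1 * R1 := ⟨_, rfl⟩
    have hR12 : R1 < R2 := by
      rw [hR2]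
      have h1 : 1 ≤ R1 := by omega
      have h2 : 2 * R1 ≤ K1 * R1 := Nat.mul_le_mul_right _ hK12
      omega
    obtain ⟨ρ, hρ⟩ : ∃ ρ : ℤ, ρ = R2 + 156 * W + 1 := ⟨_, rfl⟩
    have hdW : d * W ≤ Q * s := by
      rw [hW]
      push_cast
      rw [← hQ]
      exact hdQ
    -- the time
    obtain ⟨m, hm⟩ : ∃ m : ℕ, m = ⌊t0 * n⌋₊ := ⟨_, rfl⟩
    have hm1 : (m : ℝ) ≤ t0 * n := by
      rw [hm]; exact Nat.floor_le (by positivity)
    have ht0n : 2 ≤ t0 * n := by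
      rw [div_le_iff₀ h0] at hn2
      linarith
    have hm2 : t0 / 2 * n ≤ m := by
      have := Nat.lt_floor_add_one (t0 * n)
      rw [← hm] at this
      linarith
    have hmn : m ≤ n := by
      have h1 : t0 * n ≤ 1 * n := mul_le_mul_of_nonneg_right h01 hn0'.le
      have : (m : ℝ) ≤ n := by linarith
      exact_mod_cast this
    have hm0 : 1 ≤ m := by
      have : (0 : ℝ) < m := by linarith
      exact_mod_cast this
    -- the events
    have hB1 : perc.real {ω | ∀ j < J, ¬ Gd3 c0 E0 t M B (64 ^ j * r) (cut ω ρ)} ≤ δ' / 3 := by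
      have hsub : ∀ j < J, SA (4 * (64 ^ j * r : ℕ)) ⊆ (bx ρ).edges := by
        intro j hj
        have h1 := hscaleN j hj
        have h2 : ((64 ^ j * r : ℕ) : ℤ) ≤ W := by exact_mod_cast h1
        push_cast at h2
        show SA (4 * (64 ^ j * r : ℕ)) ⊆ RE (-ρ) ρ 0 ρ
        push_cast
        exact SA_sub (by omega) (by omega) (by omega)
      have hI := hind p c0 E0 t M B a0 hp1 ha0 hg J r (bx ρ).edges hr3 hsub
      rw [hcut ρ (fun F => ∀ j < J, ¬ Gd3 c0 E0 t M B (64 ^ j * r) F)]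
      exact hI.trans hJ.le
    have hB2 : perc.real {ω | ¬ ∀ u ∈ Ret_S ω (R1 : ℤ), H984H.sd u (0, 0) < (R2 : ℤ)} ≤ δ' / 3 := by
      refine (hret R1 R2 (by omega) hR12.le).trans ?_
      have h1 : (R1 : ℝ) / R2 = 1 / K1 := by
        rw [hR2]
        push_cast
        have : (0 : ℝ) < R1 := by
          have : 0 < R1 := by omega
          exact_mod_cast this
        field_simp
      rw [h1]
      exact hK1u
    have hB3 : perc.real {ω | reach m ω ≤ x * (m : ℝ) ^ (4/7 : ℝ)} ≤ δ' / 3 :=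
      (hAt m x hm0 hx).trans hxA
    refine le_trans (measureReal_mono (s₂ := ({ω | ∀ j < J, ¬ Gd3 c0 E0 t M B (64 ^ j * r) (cut ω ρ)} ∪
      {ω | ¬ ∀ u ∈ Ret_S ω (R1 : ℤ), H984H.sd u (0, 0) < (R2 : ℤ)}) ∪
      {ω | reach m ω ≤ x * (m : ℝ) ^ (4/7 : ℝ)}) ?_ (measure_ne_top _ _)) ?_
    swap
    · have e1 := measureReal_union_le (μ := perc)
        ({ω | ∀ j < J, ¬ Gd3 c0 E0 t M B (64 ^ j * r) (cut ω ρ)} ∪
        {ω | ¬ ∀ u ∈ Ret_S ω (R1 : ℤ), H984H.sd u (0, 0) < (R2 : ℤ)})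
        {ω | reach m ω ≤ x * (m : ℝ) ^ (4/7 : ℝ)}
      have e2 := measureReal_union_le (μ := perc)
        {ω | ∀ j < J, ¬ Gd3 c0 E0 t M B (64 ^ j * r) (cut ω ρ)}
        {ω | ¬ ∀ u ∈ Ret_S ω (R1 : ℤ), H984H.sd u (0, 0) < (R2 : ℤ)}
      linarith
    intro ω hbad
    by_contra hcon
    simp only [Set.mem_union, Set.mem_ofPred_eq, not_or, not_forall, not_not] at hcon
    obtain ⟨⟨⟨j, hj, hG⟩, hS⟩, hrch⟩ := hcon
    push Not at hrch
    apply hbad
    obtain ⟨a, ha⟩ : ∃ a : ℕ, a = 64 ^ j * r := ⟨_, rfl⟩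
    have haW : a ≤ W := by rw [ha]; exact hscaleN j hj
    rw [← ha] at hG
    have haa : 192 ≤ a := by
      have h4 : 1 ≤ 64 ^ j := Nat.one_le_iff_ne_zero.mpr (by positivity)
      have h5 : 1 * r ≤ 64 ^ j * r := Nat.mul_le_mul_right _ h4
      omega
    have hδU : d * (a : ℝ) ≤ Q * s := by
      have h4 := mul_le_mul_of_nonneg_left (hscale j hj) hδi.le
      rw [ha]
      linarith
    have hδU2 : s / 2 ≤ d * (a : ℝ) := by
      have h4 := mul_le_mul_of_nonneg_left (hscale2 j) hδi.le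
      rw [ha]
      linarith
    have hk64 : 64 * (a / 64) ≤ a := Nat.mul_div_le a 64
    have hk128 : a ≤ 128 * (a / 64) := by omega
    have hk64' : 64 * ((a / 64 : ℕ) : ℝ) ≤ a := by exact_mod_cast hk64
    have hk128' : (a : ℝ) ≤ 128 * ((a / 64 : ℕ) : ℝ) := by exact_mod_cast hk128
    have hk0 : (0:ℝ) ≤ ((a / 64 : ℕ) : ℝ) := Nat.cast_nonneg _
    have haWz : (a : ℤ) ≤ W := by exact_mod_cast haW
    refine good_of_Gd hδi (by omega) hG hc0 hE0 ht ?_ (by linarith) (by positivity) hδU2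
    intro v hv
    have hv0 := mem_V3 hv
    clear hv
    obtain ⟨hv, hE⟩ := hv0
    obtain ⟨k, hk1, hk2⟩ := hdetv ω ρ R2 R1 M B a haa (by omega) (by exact_mod_cast hR12)
      (by omega) (by omega) (by
        intro u hu
        by_contra hcon2
        exact hS ⟨u, hu, hcon2⟩) hG.1.1 hG.1.2 v hv hE
    have hth := hdett ω ρ M B a hM hB haa (by omega) v hv hE
    have hkm : k ≤ m := by
      by_contra hkm
      push Not at hkm
      have h1 := reach_small (ω := ω) (m := m) (R := R2) (fun j hj => hk2 j (by omega))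
      have h2 : x * (m : ℝ) ^ (4/7 : ℝ) < 2 * R2 + 1 := by
        refine lt_of_lt_of_le hrch ?_
        exact_mod_cast h1
      have h3 : (t0 / 2 * n) ^ (4/7 : ℝ) ≤ (m : ℝ) ^ (4/7 : ℝ) :=
        Real.rpow_le_rpow (by positivity) hm2 (by norm_num)
      rw [Real.mul_rpow (by positivity) hn0'.le] at h3
      have h4 : d * (n : ℝ) ^ (4/7 : ℝ) = 1 := by
        rw [hd]
        unfold dl
        rw [← Real.rpow_add hn0']
        norm_num
      have h5 : Y ≤ d * (x * (m : ℝ) ^ (4/7 : ℝ)) := by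
        calc Y = d * (n : ℝ) ^ (4/7 : ℝ) * Y := by rw [h4, one_mul]
          _ = d * (x * ((t0 / 2) ^ (4/7 : ℝ) * (n : ℝ) ^ (4/7 : ℝ))) := by rw [hY]; ring
          _ ≤ _ := by
            refine mul_le_mul_of_nonneg_left (mul_le_mul_of_nonneg_left h3 hx.le) hδi.le
      have h6 : d * (x * (m : ℝ) ^ (4/7 : ℝ)) < d * (2 * R2 + 1) :=
        mul_lt_mul_of_pos_left h2 hδi
      have h7 : (R2 : ℝ) = K1 * (60 * W) := by
        rw [hR2, hR1]; push_cast; ring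
      have h8 : d * (2 * (R2 : ℝ) + 1) = 120 * (K1 * (d * W)) + d := by
        rw [h7]; ring
      have h9 : (K1 : ℝ) * (d * W) ≤ K1 * (Q * s) := mul_le_mul_of_nonneg_left hdW (by positivity)
      linarith
    have hvis : ∃ i ≤ n, (i : ℝ) ≤ t0 * n ∧ (path ω i).1 = v := by
      refine ⟨k, hkm.trans hmn, ?_, hk1⟩
      have : (k : ℝ) ≤ m := by exact_mod_cast hkm
      linarith
    have hv' := hv
    unfold core3 at hv
    rw [Finset.mem_product, Finset.mem_Icc, Finset.mem_Icc] at hv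
    obtain ⟨⟨v1, v2⟩, v3, v4⟩ := hv
    have hU0 : (0:ℝ) ≤ a := Nat.cast_nonneg a
    have v1' : -(60 * (a : ℝ)) ≤ v.1 := by exact_mod_cast v1
    have v2' : (v.1 : ℝ) ≤ -(58 * (a : ℝ)) := by exact_mod_cast v2
    have v3' : 20 * (a : ℝ) ≤ v.2 := by exact_mod_cast v3
    have v4' : (v.2 : ℝ) ≤ 22 * (a : ℝ) := by exact_mod_cast v4
    have w1 := mul_le_mul_of_nonneg_left v1' hδi.le
    have w2 := mul_le_mul_of_nonneg_left v2' hδi.le
    have w3 := mul_le_mul_of_nonneg_left v3' hδi.le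
    have w4 := mul_le_mul_of_nonneg_left v4' hδi.le
    have w0 : 0 ≤ d * (a : ℝ) := by positivity
    have er : (zp d v).re = d * v.1 := rfl
    have ei : (zp d v).im = d * v.2 + d := by
      show d * ((v.2 : ℝ) + 1) = d * v.2 + d
      ring
    refine ⟨?_, ?_⟩
    · rw [hKdef, Complex.mem_reProdIm, Set.mem_Icc, Set.mem_Icc, er, ei]
      refine ⟨⟨by linarith, by linarith⟩, by linarith, by linarith⟩
    · intro k hk
      refine mem_Qct hn0 hB (by omega) hvis hth hM'0.le ?_ (by linarith) ?_ ?_ ?_ (hNN k)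
      · rw [hM']
        refine mul_le_mul_of_nonneg_left ?_ (by positivity)
        refine pow_le_pow_left₀ (by positivity) ?_ _
        have h4 := mul_le_mul_of_nonneg_left hk64' hδi.le
        have h5 : 0 ≤ d * ((a / 64 : ℕ) : ℝ) := by positivity
        linarith
      · rw [le_div_iff₀ (by positivity)] at hi4
        linarith
      · have := mul_le_mul_of_nonneg_left hk128' hδi.le
        linarith
      · have e1 : ‖zp d v‖ ≤ |(zp d v).re| + |(zp d v).im| := Complex.norm_le_abs_re_add_abs_im _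
        rw [er, ei] at e1
        have e2 : |d * (v.1 : ℝ)| ≤ 60 * (Q * s) := by
          rw [abs_le]; constructor <;> linarith
        have e3 : |d * (v.2 : ℝ) + d| ≤ 24 * (Q * s) := by
          rw [abs_le]; constructor <;> linarith
        have h4 := mul_le_mul_of_nonneg_left hk64' hδi.le
        have h5 : 0 ≤ d * ((a / 64 : ℕ) : ℝ) := by positivity
        linarith

end Pool.Agent.Y989.HP.LIM
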