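import Pool.Agent.Y989.FR.StmD
import Pool.Agent.H984R4.HN.Couple
import Pool.Agent.H984R4.HN.Ret

/-!
# Sides of the past of the exploration path in the half-plane: the steps
(every step is a `Prop`; nothing is assumed)

`Conf`, `perc`, `opn`, `path`, `gam`, `curve`, `cut`, `bx` : `H984H` (`Pool.Agent.H984R4.HN.HPDefs`);
`Ret_S` : `H984H` (`Pool.Agent.H984R4.HN.Ret`).
-/

set_option autoImplicit false

namespace Pool.Agent.Y989.HP

open H974 H12S Finset H984P MeasureTheory Filter Topology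
open Pool.Agent.Y989.FR (GO3 GD3 E3 core3 AE Fro V3 Gd3)
open H984H (Conf perc path opn cut bx gam Ret_S)

/-- `x` keeps away from the exploration path. -/
def AwP (ω : Conf) (M B k : ℕ) (v x : Vtx) : Prop :=
  ∀ i : ℕ, H984N.sd x v ^ B ≤ (M : ℤ) * ((8 * k : ℕ) : ℤ) ^ (B - 1) * H984N.sd x (path ω i).1

/-- DETV: if the cluster of the half-box of radius `r` does not reach the distance `R`, then a vertex
of the core with the event `E3` is visited by the exploration path before it leaves the box of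
radius `R`. -/
def S_DETV : Prop := ∀ (ω : Conf) (ρ R r : ℤ) (M B a : ℕ), 192 ≤ a → 60 * (a : ℤ) ≤ r → r < R →
  R < ρ → 156 * (a : ℤ) < ρ → (∀ u ∈ Ret_S ω r, H984H.sd u (0, 0) < R) →
  GO3 a (cut ω ρ) → GD3 a (cut ω ρ) → ∀ v ∈ core3 a, E3 M B a v (cut ω ρ) →
  ∃ k, (path ω k).1 = v ∧ ∀ j ≤ k, H984H.sd (path ω j).1 (0, 0) < R

/-- DETT: the thick path keeps away from the whole exploration path. -/
def S_DETT : Prop := ∀ (ω : Conf) (ρ : ℤ) (M B a : ℕ), 16 ≤ M → 1 ≤ B → 192 ≤ a →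
  156 * (a : ℤ) < ρ → ∀ v ∈ core3 a, E3 M B a v (cut ω ρ) →
  ∃ x ∈ bdB v 2, ∃ y ∈ bdB v (a / 64),
    Reach {e | e ∈ AE v 2 (a / 64) ∧ AwP ω M B (a / 64) v (src e) ∧
      AwP ω M B (a / 64) v (tgt e)} x y

/-- RETP: the cluster of a half-box. -/
def S_RETP : Prop := ∃ C c : ℝ, 0 < C ∧ 0 < c ∧ ∀ r R : ℕ, 1 ≤ r → r ≤ R →
  perc.real {ω | ¬ ∀ u ∈ Ret_S ω r, H984H.sd u (0, 0) < R} ≤ C * ((r : ℝ) / R) ^ c

/-- CUT: probabilities of events which depend on the edges of the half-box. -/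
def S_CUTP : Prop := ∀ (ρ : ℤ) (A : Finset Edg → Prop),
  perc.real {ω | A (cut ω ρ)} = PQ (1 / 2) (bx ρ).edges A

/-- Pairs `(f, z)`: the curve `f` passes before the time `t` at distance `e` of `z`, and some chain
of `N + 1` points with steps at most `e` leads from `z` to distance `κ` and keeps away from `f`. -/
def Qct (t M κ R e : ℝ) (B N : ℕ) : Set (C(unitInterval, ℂ) × ℂ) :=
  {p | ‖p.2‖ ≤ R ∧ (∃ s : unitInterval, (s : ℝ) ≤ t ∧ dist (p.1 s) p.2 ≤ e) ∧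
    ∃ x : Fin (N + 1) → ℂ, (∀ i, ‖x i‖ ≤ R) ∧
    dist (x 0) p.2 ≤ e ∧ κ ≤ dist (x (Fin.last N)) p.2 + e ∧
    (∀ i : Fin N, dist (x i.castSucc) (x i.succ) ≤ e) ∧
    ∀ i s, dist (x i) p.2 ^ B ≤ M * dist (x i) (p.1 s) + e}

/-- QCT: these sets are closed. -/
def S_QCT : Prop := ∀ (t M κ R e : ℝ) (B N : ℕ), IsClosed (Qct t M κ R e B N)

/-- GEOT: in the limit `z` lies on the frontier of a component of the complement of the past, at all
the times after `t`. -/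
def S_GEOT : Prop := ∀ (t M κ R : ℝ) (B : ℕ) (N : ℕ → ℕ) (f : C(unitInterval, ℂ)) (z : ℂ),
  0 < M → 0 < κ → 1 ≤ B → (∀ k : ℕ, (f, z) ∈ Qct t M κ R (1 / ((k : ℝ) + 1)) B (N k)) →
    ∀ t' : unitInterval, t ≤ t' → z ∈ f '' Set.Icc 0 t' ∧ z ∈ Fro (f '' Set.Icc 0 t')

end Pool.Agent.Y989.HP
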